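import Mathlib

/-!
# Quasicontinuous functions and minimally bounded sets: definitions
-/

set_option autoImplicit false

namespace Pool.Agent.V11242.QC

section Top

variable (X : Type) [TopologicalSpace X]

/-- `X` is a Lusin space in the sense of Kunen: a Hausdorff space such that every nowhere dense
subset is countable, the set of all isolated points is countable, and `X` is uncountable. -/
def IsLusin : Prop :=
  T2Space X ∧ (∀ N : Set X, IsNowhereDense N → N.Countable) ∧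
    {x : X | IsOpen ({x} : Set X)}.Countable ∧ ¬ (Set.univ : Set X).Countable

variable {X} in
/-- The real function `f` is quasicontinuous. -/
def QuasiCont (f : X → ℝ) : Prop :=
  ∀ x, ∀ U : Set X, IsOpen U → x ∈ U → ∀ V : Set ℝ, IsOpen V → f x ∈ V →
    ∃ W : Set X, IsOpen W ∧ W.Nonempty ∧ W ⊆ U ∧ ∀ w ∈ W, f w ∈ V

/-- The set of all quasicontinuous real functions on `X`, with the topology of pointwise
convergence (the subspace topology of the product topology). -/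
abbrev Qp : Type := {f : X → ℝ // QuasiCont f}

/-- The space `Y` is Fréchet–Urysohn at the point `y`. -/
def IsFUAt (Y : Type) [TopologicalSpace Y] (y : Y) : Prop :=
  ∀ A : Set Y, y ∈ closure A →
    ∃ u : ℕ → Y, (∀ n, u n ∈ A) ∧ Filter.Tendsto u Filter.atTop (nhds y)

/-- The space `Y` is Fréchet–Urysohn. -/
def IsFU (Y : Type) [TopologicalSpace Y] : Prop := ∀ y : Y, IsFUAt Y y

/-- The regular open sets form a base of the topology of `X`. -/
def IsSemiregular : Prop :=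
  ∀ x : X, ∀ U : Set X, IsOpen U → x ∈ U → ∃ V : Set X, interior (closure V) = V ∧ x ∈ V ∧ V ⊆ U

/-- `X` is open Whyburn. -/
def IsOpenWhyburn : Prop :=
  ∀ A : Set X, IsOpen A → ∀ x ∈ closure A \ A, ∃ B ⊆ A, IsOpen B ∧ closure B \ A = {x}

variable {X} in
/-- The set `A` is minimally bounded. -/
def MinBdd (A : Set X) : Prop := A ⊆ closure (interior A) ∧ interior (closure A) ⊆ A

/-- The family `𝒰` is an `ω`-cover of `X` which consists of minimally bounded sets. -/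
def OmegaS (𝒰 : Set (Set X)) : Prop :=
  (∀ U ∈ 𝒰, MinBdd U) ∧ ∀ F : Finset X, ∃ U ∈ 𝒰, ∀ x ∈ F, x ∈ U

/-- The family `𝒱` is a `γ`-cover of `X` which consists of minimally bounded sets. -/
def GammaS (𝒱 : Set (Set X)) : Prop :=
  (∀ V ∈ 𝒱, MinBdd V) ∧ (∀ x, ∃ V ∈ 𝒱, x ∈ V) ∧ ∀ x, {V ∈ 𝒱 | x ∉ V}.Finite

/-- The property `S₁(Ωˢ, Γˢ)`. -/
def S1 : Prop :=
  ∀ 𝒰 : ℕ → Set (Set X), (∀ n, OmegaS X (𝒰 n)) →
    ∃ U : ℕ → Set X, (∀ n, U n ∈ 𝒰 n) ∧ GammaS X (Set.range U)

/-- The property `S₁(Ωˢ, Γˢ)`, in the stronger form in which the selected sets `U n` are such that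
every point is in `U n` for all but finitely many `n`. -/
def S1' : Prop :=
  ∀ 𝒰 : ℕ → Set (Set X), (∀ n, OmegaS X (𝒰 n)) →
    ∃ U : ℕ → Set X, (∀ n, U n ∈ 𝒰 n) ∧ GammaS X (Set.range U) ∧ ∀ x, {n | x ∉ U n}.Finite

/-- `X` is a `γ`-space: every open `ω`-cover `𝒰` with `X ∉ 𝒰` includes an infinite family `𝒱` such
that every point is in all but finitely many members of `𝒱`. -/
def IsGammaSpace : Prop :=
  ∀ 𝒰 : Set (Set X), (∀ U ∈ 𝒰, IsOpen U) → Set.univ ∉ 𝒰 →
    (∀ F : Finset X, ∃ U ∈ 𝒰, ∀ x ∈ F, x ∈ U) →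
      ∃ 𝒱 ⊆ 𝒰, 𝒱.Infinite ∧ ∀ x, {U ∈ 𝒱 | x ∉ U}.Finite

end Top

end Pool.Agent.V11242.QC
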