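import Mathlib
import Pool.Agent.V11242.QC.Defs

/-!
# Closing off, and the closure in the space of quasicontinuous functions
-/

set_option autoImplicit false

namespace Pool.Agent.V11242.QC

open Set Filter Topology

theorem closing {X : Type} (D : Set X) (hD : D.Countable) (J : ℕ → Finset X → Set X)
    (hJ : ∀ n F, (J n F).Countable) :
    ∃ Y : Set X, D ⊆ Y ∧ Y.Countable ∧ ∀ n (F : Finset X), (F : Set X) ⊆ Y → J n F ⊆ Y := by
  classical
  let step : Set X → Set X := fun Z => Z ∪ ⋃ n : ℕ, ⋃ G : Finset Z,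
    J n (G.map (Function.Embedding.subtype _))
  obtain ⟨Z, hZ0, hZ⟩ : ∃ Z : ℕ → Set X, Z 0 = D ∧ ∀ k, Z (k + 1) = step (Z k) :=
    ⟨fun k => Nat.rec (motive := fun _ => Set X) D (fun _ Z => step Z) k, rfl, fun _ => rfl⟩
  have hmono : Monotone Z := monotone_nat_of_le_succ fun k => by
    rw [hZ]
    exact subset_union_left
  have hc : ∀ k, (Z k).Countable := by
    intro k
    induction k with
    | zero => rw [hZ0]; exact hD
    | succ k ih =>
      rw [hZ]
      have := ih.to_subtype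
      exact ih.union (countable_iUnion fun n => countable_iUnion fun G => hJ _ _)
  refine ⟨⋃ k, Z k, ?_, countable_iUnion hc, ?_⟩
  · rw [← hZ0]
    exact subset_iUnion Z 0
  · intro n F hF
    have h1 : ∀ x ∈ F, ∃ k, x ∈ Z k := fun x hx => mem_iUnion.1 (hF hx)
    choose! e he using h1
    have h2 : ∀ x ∈ F, x ∈ Z (F.sup e) := fun x hx => hmono (Finset.le_sup hx) (he x hx)
    have h3 : (F.subtype fun x => x ∈ Z (F.sup e)).map (Function.Embedding.subtype _) = F := by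
      rw [Finset.subtype_map, Finset.filter_eq_self]
      exact h2
    refine subset_trans ?_ (subset_iUnion Z (F.sup e + 1))
    rw [hZ]
    refine subset_union_of_subset_right (subset_iUnion_of_subset n
      (subset_iUnion_of_subset (F.subtype fun x => x ∈ Z (F.sup e)) ?_)) _
    rw [h3]

/-- The diagonal choice along a closed countable set. -/
theorem diagonal {X σ : Type} (r : X) (D : Set X) (hD : D.Countable) (c : ℕ → Finset X → σ)
    (J : σ → Set X) (hJ : ∀ s, (J s).Countable) :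
    ∃ (Y : Set X) (F : ℕ → Finset X), D ⊆ Y ∧ r ∈ Y ∧ Y.Countable ∧
      (∀ n, J (c n (F n)) ⊆ Y) ∧ ∀ x ∈ Y, ∃ m, ∀ n, m ≤ n → x ∈ F n := by
  classical
  obtain ⟨Y, hDY, hY, hYJ⟩ := closing (insert r D) (hD.insert r) (fun n F => J (c n F))
    (fun n F => hJ _)
  have hr : r ∈ Y := hDY (mem_insert _ _)
  obtain ⟨x, hx⟩ := hY.exists_eq_range ⟨r, hr⟩
  refine ⟨Y, fun n => (Finset.range (n + 1)).image x, (subset_insert _ _).trans hDY, hr, hY,
    fun n => hYJ n _ ?_, ?_⟩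
  · intro y hy
    rw [Finset.mem_coe, Finset.mem_image] at hy
    obtain ⟨k, -, rfl⟩ := hy
    rw [hx]
    exact mem_range_self k
  · intro y hy
    rw [hx] at hy
    obtain ⟨m, rfl⟩ := hy
    exact ⟨m, fun n hn => Finset.mem_image.2 ⟨m, Finset.mem_range.2 (by omega), rfl⟩⟩

variable {X : Type} [TopologicalSpace X]

theorem exists_of_mem_closure {A : Set (Qp X)} {f : Qp X} (h : f ∈ closure A) (F : Finset X)
    {ε : ℝ} (hε : 0 < ε) : ∃ g ∈ A, ∀ x ∈ F, |g.1 x - f.1 x| < ε := by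
  have h1 : IsOpen (⋂ x ∈ F, {g : Qp X | |g.1 x - f.1 x| < ε}) := by
    refine isOpen_biInter_finset fun x _ => ?_
    refine isOpen_lt ?_ continuous_const
    exact (((continuous_apply x).comp continuous_subtype_val).sub continuous_const).abs
  obtain ⟨g, hg, hgA⟩ := mem_closure_iff.1 h _ h1 (by
    simp only [mem_iInter, mem_ofPred_eq]
    intro x _
    rw [sub_self, abs_zero]
    exact hε)
  refine ⟨g, hgA, fun x hx => ?_⟩
  have h2 := mem_iInter₂.1 hg x hx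
  exact h2

theorem mem_closure_of_exists {A : Set (Qp X)} {f : Qp X}
    (h : ∀ (F : Finset X) (ε : ℝ), 0 < ε → ∃ g ∈ A, ∀ x ∈ F, |g.1 x - f.1 x| < ε) :
    f ∈ closure A := by
  rw [closure_subtype, mem_closure_iff]
  intro O hO hfO
  obtain ⟨F, u, hu, hu'⟩ := isOpen_pi_iff.1 hO _ hfO
  have h1 : ∀ x ∈ F, ∃ ε : ℝ, 0 < ε ∧ Metric.ball (f.1 x) ε ⊆ u x := fun x hx =>
    Metric.isOpen_iff.1 (hu x hx).1 _ (hu x hx).2
  choose! ε hε hε' using h1
  obtain ⟨δ, hδ, hδ'⟩ : ∃ δ : ℝ, 0 < δ ∧ ∀ x ∈ F, δ ≤ ε x := by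
    rcases F.eq_empty_or_nonempty with rfl | hne
    · exact ⟨1, one_pos, fun x hx => absurd hx (Finset.notMem_empty x)⟩
    · obtain ⟨x, hx, hx'⟩ := F.exists_min_image ε hne
      exact ⟨ε x, hε x hx, hx'⟩
  obtain ⟨g, hg, hg'⟩ := h F δ hδ
  refine ⟨g.1, hu' fun x hx => hε' x hx ?_, ⟨g, hg, rfl⟩⟩
  rw [Metric.mem_ball, Real.dist_eq]
  exact (hg' x hx).trans_le (hδ' x hx)

theorem tendsto_of {u : ℕ → Qp X} {f : Qp X}
    (h : ∀ x, ∃ m, ∀ n, m ≤ n → |(u n).1 x - f.1 x| < 1 / ((n : ℝ) + 1)) :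
    Tendsto u atTop (𝓝 f) := by
  rw [tendsto_subtype_rng, tendsto_pi_nhds]
  intro x
  obtain ⟨m, hm⟩ := h x
  rw [Metric.tendsto_atTop]
  intro ε hε
  obtain ⟨k, hk⟩ := exists_nat_one_div_lt hε
  refine ⟨max m k, fun n hn => ?_⟩
  rw [Real.dist_eq]
  refine (hm n ((le_max_left _ _).trans hn)).trans (lt_of_le_of_lt ?_ hk)
  have h2 : k ≤ n := (le_max_right _ _).trans hn
  gcongr

/-- A criterion for the Fréchet–Urysohn property. -/
theorem fu_of (D : Set X) (hD : D.Countable) (r : X)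
    (h : ∀ g : X → ℝ, QuasiCont g → {x | x ∉ D ∧ g x ≠ g r}.Countable) : IsFU (Qp X) := by
  intro f A hf
  have h1 : ∀ (n : ℕ) (F : Finset X), ∃ g ∈ A, ∀ x ∈ F, |g.1 x - f.1 x| < 1 / ((n : ℝ) + 1) :=
    fun n F => exists_of_mem_closure hf F (by positivity)
  choose c hcA hc using h1
  obtain ⟨Y, F, hDY, hr, hY, hYJ, hF⟩ := diagonal r (D ∪ {x | x ∉ D ∧ f.1 x ≠ f.1 r})
    (hD.union (h f.1 f.2)) c (fun g => {x | x ∉ D ∧ g.1 x ≠ g.1 r}) (fun g => h g.1 g.2)
  refine ⟨fun n => c n (F n), fun n => hcA _ _, tendsto_of fun x => ?_⟩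
  by_cases hx : x ∈ Y
  · obtain ⟨m, hm⟩ := hF x hx
    exact ⟨m, fun n hn => hc n (F n) x (hm n hn)⟩
  · obtain ⟨m, hm⟩ := hF r hr
    refine ⟨m, fun n hn => ?_⟩
    have h2 : x ∉ D := fun h => hx (hDY (Or.inl h))
    have h3 : (c n (F n)).1 x = (c n (F n)).1 r := by
      by_contra h
      exact hx (hYJ n ⟨h2, h⟩)
    have h4 : f.1 x = f.1 r := by
      by_contra h
      exact hx (hDY (Or.inr ⟨h2, h⟩))
    rw [h3, h4]
    exact hc n (F n) r (hm n hn)

end Pool.Agent.V11242.QC
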