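import Mathlib
import Pool.Agent.V11242.QC.Base

/-!
# Extensions of a space by filters of open sets
-/

set_option autoImplicit false

namespace Pool.Agent.V11242.QC

open Set Filter Topology

/-- A family of filters `G r`, `r ∈ R`, of open subsets of `Q`, with pairwise disjoint members, and
without adherent points. -/
structure Ext (Q R : Type) [TopologicalSpace Q] where
  /-- the filter with the index `r` -/
  G : R → Set (Set Q)
  isOpen' : ∀ r O, O ∈ G r → IsOpen O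
  univ' : ∀ r, univ ∈ G r
  inter' : ∀ r O O', O ∈ G r → O' ∈ G r → O ∩ O' ∈ G r
  nonempty' : ∀ r O, O ∈ G r → O.Nonempty
  mono' : ∀ r O O', O ∈ G r → O ⊆ O' → IsOpen O' → O' ∈ G r
  sep' : ∀ r r', r ≠ r' → ∃ O ∈ G r, ∃ O' ∈ G r', Disjoint O O'
  free' : ∀ (q : Q) (r : R), ∃ O, IsOpen O ∧ q ∈ O ∧ ∃ O' ∈ G r, Disjoint O O'

namespace Ext

variable {Q R : Type} [TopologicalSpace Q] (E : Ext Q R)

/-- The extension of `Q` by the points `r ∈ R`, such that the sets `{r} ∪ O`, `O ∈ G r`, form a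
base at `r`. -/
def X (_E : Ext Q R) : Type := Q ⊕ R

instance : TopologicalSpace E.X where
  IsOpen W := IsOpen {q : Q | (Sum.inl q : Q ⊕ R) ∈ (W : Set (Q ⊕ R))} ∧
    ∀ r : R, (Sum.inr r : Q ⊕ R) ∈ (W : Set (Q ⊕ R)) →
      {q : Q | (Sum.inl q : Q ⊕ R) ∈ (W : Set (Q ⊕ R))} ∈ E.G r
  isOpen_univ := ⟨isOpen_univ, fun r _ => E.univ' r⟩
  isOpen_inter := fun U V hU hV =>
    ⟨hU.1.inter hV.1, fun r hr => E.inter' r _ _ (hU.2 r hr.1) (hV.2 r hr.2)⟩
  isOpen_sUnion := by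
    intro 𝒰 h𝒰
    have h1 : IsOpen {q : Q | (Sum.inl q : Q ⊕ R) ∈ (⋃₀ 𝒰 : Set (Q ⊕ R))} := by
      have h2 : {q : Q | (Sum.inl q : Q ⊕ R) ∈ (⋃₀ 𝒰 : Set (Q ⊕ R))} =
          ⋃ U ∈ 𝒰, {q : Q | (Sum.inl q : Q ⊕ R) ∈ (U : Set (Q ⊕ R))} := by
        ext q
        rw [mem_iUnion₂]
        constructor
        · rintro ⟨t, ht, h⟩
          exact ⟨t, ht, h⟩
        · rintro ⟨t, ht, h⟩
          exact ⟨t, ht, h⟩
      rw [h2]
      exact isOpen_biUnion fun U hU => (h𝒰 U hU).1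
    refine ⟨h1, fun r hr => ?_⟩
    obtain ⟨U, hU, hrU⟩ := hr
    exact E.mono' r _ _ ((h𝒰 U hU).2 r hrU) (fun q hq => ⟨U, hU, hq⟩) h1

/-- the points of `Q` -/
def inQ (q : Q) : E.X := Sum.inl q

/-- the new points -/
def inR (r : R) : E.X := Sum.inr r

theorem isOpen_iff {W : Set E.X} : IsOpen W ↔ IsOpen (E.inQ ⁻¹' W) ∧
    ∀ r, E.inR r ∈ W → E.inQ ⁻¹' W ∈ E.G r := Iff.rfl

theorem cases (x : E.X) : (∃ q, x = E.inQ q) ∨ ∃ r, x = E.inR r := by
  rcases x with q | r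
  · exact Or.inl ⟨q, rfl⟩
  · exact Or.inr ⟨r, rfl⟩

theorem inQ_inj : Function.Injective E.inQ := fun _ _ h => Sum.inl.inj h

theorem inR_inj : Function.Injective E.inR := fun _ _ h => Sum.inr.inj h

theorem inQ_ne_inR (q : Q) (r : R) : E.inQ q ≠ E.inR r := fun h => by cases h

theorem preimage_image (O : Set Q) : E.inQ ⁻¹' (E.inQ '' O) = O :=
  Set.preimage_image_eq _ E.inQ_inj

theorem isOpen_image {O : Set Q} (hO : IsOpen O) : IsOpen (E.inQ '' O) := by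
  rw [E.isOpen_iff, E.preimage_image]
  refine ⟨hO, fun r hr => ?_⟩
  obtain ⟨q, -, hq⟩ := hr
  exact absurd hq (E.inQ_ne_inR q r)

/-- the basic neighbourhoods of a new point -/
def nb (r : R) (O : Set Q) : Set E.X := insert (E.inR r) (E.inQ '' O)

theorem preimage_nb (r : R) (O : Set Q) : E.inQ ⁻¹' (E.nb r O) = O := by
  ext q
  simp only [nb, mem_preimage, mem_insert_iff, mem_image]
  constructor
  · rintro (h | ⟨q', h, h'⟩)
    · exact absurd h (E.inQ_ne_inR q r)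
    · rwa [← E.inQ_inj h']
  · exact fun h => Or.inr ⟨q, h, rfl⟩

theorem isOpen_nb {r : R} {O : Set Q} (hO : O ∈ E.G r) : IsOpen (E.nb r O) := by
  rw [E.isOpen_iff, E.preimage_nb]
  refine ⟨E.isOpen' r O hO, fun r' hr' => ?_⟩
  rcases hr' with h | ⟨q, -, hq⟩
  · rw [E.inR_inj h]
    exact hO
  · exact absurd hq (E.inQ_ne_inR q r')

theorem nonempty_trace {W : Set E.X} (hW : IsOpen W) (hne : W.Nonempty) :
    (E.inQ ⁻¹' W).Nonempty := by
  obtain ⟨x, hx⟩ := hne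
  rcases E.cases x with ⟨q, rfl⟩ | ⟨r, rfl⟩
  · exact ⟨q, hx⟩
  · exact E.nonempty' r _ ((E.isOpen_iff.1 hW).2 r hx)

theorem mem_closure_inR {W : Set E.X} (hW : IsOpen W) {r : R} :
    E.inR r ∈ closure W ↔ ∀ O ∈ E.G r, (O ∩ E.inQ ⁻¹' W).Nonempty := by
  rw [mem_closure_iff]
  constructor
  · intro h O hO
    have h1 := h _ (E.isOpen_nb hO) (mem_insert _ _)
    have h2 := E.nonempty_trace ((E.isOpen_nb hO).inter hW) h1
    rwa [preimage_inter, E.preimage_nb] at h2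
  · intro h U hU hrU
    obtain ⟨q, hq, hq'⟩ := h _ ((E.isOpen_iff.1 hU).2 r hrU)
    exact ⟨E.inQ q, hq, hq'⟩

theorem t2 [T2Space Q] : T2Space E.X := by
  refine ⟨fun x y hxy => ?_⟩
  have key : ∀ (q : Q) (r : R), ∃ U V : Set E.X, IsOpen U ∧ IsOpen V ∧ E.inQ q ∈ U ∧
      E.inR r ∈ V ∧ Disjoint U V := by
    intro q r
    obtain ⟨O, hO, hq, O', hO', hd⟩ := E.free' q r
    refine ⟨E.inQ '' O, E.nb r O', E.isOpen_image hO, E.isOpen_nb hO', ⟨q, hq, rfl⟩,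
      mem_insert _ _, ?_⟩
    rw [Set.disjoint_left]
    rintro _ ⟨q', hq', rfl⟩ (h | ⟨q'', h, h'⟩)
    · exact E.inQ_ne_inR q' r h
    · rw [E.inQ_inj h'] at h
      exact Set.disjoint_left.1 hd hq' h
  rcases E.cases x with ⟨q, rfl⟩ | ⟨r, rfl⟩
  · rcases E.cases y with ⟨q', rfl⟩ | ⟨r', rfl⟩
    · obtain ⟨O, O', hO, hO', h1, h2, h3⟩ := t2_separation (x := q) (y := q')
        (fun h => hxy (by rw [h]))
      refine ⟨_, _, E.isOpen_image hO, E.isOpen_image hO', ⟨q, h1, rfl⟩, ⟨q', h2, rfl⟩, ?_⟩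
      exact (Set.disjoint_image_iff E.inQ_inj).2 h3
    · exact key q r'
  · rcases E.cases y with ⟨q', rfl⟩ | ⟨r', rfl⟩
    · obtain ⟨U, V, h1, h2, h3, h4, h5⟩ := key q' r
      exact ⟨V, U, h2, h1, h4, h3, h5.symm⟩
    · obtain ⟨O, hO, O', hO', hd⟩ := E.sep' r r' (fun h => hxy (by rw [h]))
      refine ⟨E.nb r O, E.nb r' O', E.isOpen_nb hO, E.isOpen_nb hO', mem_insert _ _,
        mem_insert _ _, ?_⟩
      rw [Set.disjoint_left]
      rintro z (h1 | ⟨q1, h1, h1'⟩) (h2 | ⟨q2, h2, h2'⟩)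
      · exact hxy (h1.symm.trans h2)
      · exact E.inQ_ne_inR q2 r (h2'.trans h1)
      · exact E.inQ_ne_inR q1 r' (h1'.trans h2)
      · rw [E.inQ_inj (h1'.trans h2'.symm)] at h1
        exact Set.disjoint_left.1 hd h1 h2

/-- quasicontinuity at the new points -/
theorem quasi {g : E.X → ℝ} (hg : QuasiCont g) {r : R} {V : Set ℝ} (hV : IsOpen V)
    (h : g (E.inR r) ∈ V) {O : Set Q} (hO : O ∈ E.G r) :
    (O ∩ interior {q : Q | g (E.inQ q) ∈ V}).Nonempty := by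
  obtain ⟨W, hW, hne, hWU, hWV⟩ := hg _ _ (E.isOpen_nb hO) (mem_insert _ _) V hV h
  obtain ⟨q, hq⟩ := E.nonempty_trace hW hne
  refine ⟨q, ?_, ?_⟩
  · have h1 : E.inQ q ∈ E.nb r O := hWU hq
    have h2 : q ∈ E.inQ ⁻¹' (E.nb r O) := h1
    rwa [E.preimage_nb] at h2
  · exact mem_interior.2 ⟨E.inQ ⁻¹' W, fun q' hq' => hWV _ hq', (E.isOpen_iff.1 hW).1, hq⟩

theorem nowhereDense_inR : IsNowhereDense (range E.inR) := by
  have h1 : IsClosed (range E.inR) := by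
    have h2 : range E.inR = (E.inQ '' univ)ᶜ := by
      ext x
      rcases E.cases x with ⟨q, rfl⟩ | ⟨r, rfl⟩
      · simp only [mem_range, image_univ, mem_compl_iff]
        constructor
        · rintro ⟨r, hr⟩
          exact absurd hr.symm (E.inQ_ne_inR q r)
        · exact fun h => absurd ⟨q, rfl⟩ h
      · simp only [mem_range, image_univ, mem_compl_iff]
        exact ⟨fun _ ⟨q, hq⟩ => E.inQ_ne_inR q r hq, fun _ => ⟨r, rfl⟩⟩
    rw [h2, isClosed_compl_iff]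
    exact E.isOpen_image isOpen_univ
  rw [IsNowhereDense, h1.closure_eq, eq_empty_iff_forall_notMem]
  intro x hx
  obtain ⟨q, hq⟩ := E.nonempty_trace isOpen_interior ⟨x, hx⟩
  obtain ⟨r, hr⟩ := interior_subset hq
  exact E.inQ_ne_inR q r hr.symm

end Ext

end Pool.Agent.V11242.QC
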