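import Mathlib
import Pool.Agent.V11242.QC.Ext

/-!
# A convergent uncountable family of maximal filters of open sets
-/

set_option autoImplicit false

namespace Pool.Agent.V11242.QC

open Set Filter Topology

/-- A family of maximal filters `p i`, `i ∈ Option I`, of open subsets of `Q`, such that for every
open set `O` for all but countably many `i ∈ I` the set `O` is in `p i` if and only if it is
in `p none`. -/
structure Sys (Q I : Type) [TopologicalSpace Q] extends Ext Q (Option I) where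
  max' : ∀ i O, IsOpen O → O ∈ G i ∨ (closure O)ᶜ ∈ G i
  conv' : ∀ O, IsOpen O → {i : I | ¬ (O ∈ G (some i) ↔ O ∈ G none)}.Countable

/-- the index set -/
abbrev Ix : Type := ℕ → Bool

/-- the ambient space -/
abbrev Tx : Type := ℕ × (Ix → Bool)

/-- basic open sets -/
def box (t : Tx) (F : Finset Ix) : Set Tx := {y | y.1 = t.1 ∧ ∀ i ∈ F, y.2 i = t.2 i}

theorem isOpen_box (t : Tx) (F : Finset Ix) : IsOpen (box t F) := by
  have h1 : box t F = (Prod.fst ⁻¹' {t.1}) ∩ ⋂ i ∈ F, (fun y : Tx => y.2 i) ⁻¹' {t.2 i} := by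
    ext y
    simp [box]
  rw [h1]
  refine ((isOpen_discrete _).preimage continuous_fst).inter
    (isOpen_biInter_finset fun i _ => (isOpen_discrete _).preimage ?_)
  exact (continuous_apply i).comp continuous_snd

theorem exists_box {U : Set Tx} (hU : IsOpen U) {t : Tx} (ht : t ∈ U) : ∃ F, box t F ⊆ U := by
  obtain ⟨A, B, hA, hB, h1, h2, h3⟩ := isOpen_prod_iff.1 hU t.1 t.2 ht
  obtain ⟨F, u, hu, hu'⟩ := isOpen_pi_iff.1 hB _ h2
  refine ⟨F, fun y hy => h3 ⟨?_, hu' fun i hi => ?_⟩⟩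
  · rw [hy.1]
    exact h1
  · rw [hy.2 i hi]
    exact (hu i hi).2

/-- a countable dense set -/
def Q0 : Set Tx := range fun p : ℕ × (Σ n, Finset (Fin n → Bool)) =>
  ((p.1, fun i => decide ((fun k : Fin p.2.1 => i k) ∈ p.2.2)) : Tx)

theorem countable_Q0 : Q0.Countable := countable_range _

theorem exists_Q0 (t : Tx) (F : Finset Ix) : ∃ q ∈ Q0, q ∈ box t F := by
  classical
  have h1 : ∃ n : ℕ, ∀ i ∈ F, ∀ j ∈ F, (∀ k < n, i k = j k) → i = j := by
    have h2 : ∀ i j : Ix, ∃ n, i = j ∨ ∃ k < n, i k ≠ j k := by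
      intro i j
      by_cases h : i = j
      · exact ⟨0, Or.inl h⟩
      · obtain ⟨k, hk⟩ := Function.ne_iff.1 h
        exact ⟨k + 1, Or.inr ⟨k, Nat.lt_succ_self k, hk⟩⟩
    choose e he using h2
    refine ⟨F.sup fun i => F.sup fun j => e i j, fun i hi j hj h => ?_⟩
    rcases he i j with h3 | ⟨k, hk, hk'⟩
    · exact h3
    · refine absurd (h k (hk.trans_le ?_)) hk'
      exact (Finset.le_sup (f := fun j => e i j) hj).trans
        (Finset.le_sup (f := fun i => F.sup fun j => e i j) hi)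
  obtain ⟨n, hn⟩ := h1
  refine ⟨_, ⟨(t.1, ⟨n, (F.filter fun i => t.2 i = true).image fun i => fun k : Fin n => i k⟩),
    rfl⟩, rfl, fun i hi => ?_⟩
  rw [Bool.eq_iff_iff, decide_eq_true_iff, Finset.mem_image]
  constructor
  · rintro ⟨j, hj, hji⟩
    rw [Finset.mem_filter] at hj
    rw [← hn j hj.1 i hi fun k hk => congrFun hji ⟨k, hk⟩]
    exact hj.2
  · exact fun h => ⟨i, Finset.mem_filter.2 ⟨hi, h⟩, rfl⟩

theorem dense_Q0 {U : Set Tx} (hU : IsOpen U) (hne : U.Nonempty) : ∃ q ∈ Q0, q ∈ U := by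
  obtain ⟨t, ht⟩ := hne
  obtain ⟨F, hF⟩ := exists_box hU ht
  obtain ⟨q, hq, hq'⟩ := exists_Q0 t F
  exact ⟨q, hq, hF hq'⟩

open Classical in
/-- the flips -/
noncomputable def flip : Option Ix → Tx → Tx
  | none, t => t
  | some i, t => (t.1, Function.update t.2 i (!(t.2 i)))

theorem flip_flip (i : Option Ix) (t : Tx) : flip i (flip i t) = t := by
  classical
  rcases i with _ | i
  · rfl
  · refine Prod.ext rfl (funext fun j => ?_)
    by_cases h : j = i
    · subst h
      simp [flip]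
    · simp [flip]

theorem flip_same (a : Ix) (y : Tx) : (flip (some a) y).2 a = !(y.2 a) := by
  simp [flip]

theorem flip_ne {a j : Ix} (y : Tx) (h : j ≠ a) : (flip (some a) y).2 j = y.2 j := by
  simp [flip, h]

theorem flip_fst (i : Option Ix) (t : Tx) : (flip i t).1 = t.1 := by
  rcases i with _ | i <;> rfl

theorem continuous_flip (i : Option Ix) : Continuous (flip i) := by
  rcases i with _ | i
  · exact continuous_id
  · refine continuous_fst.prodMk (continuous_pi fun j => ?_)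
    by_cases h : j = i
    · subst h
      have h1 : Continuous fun y : Tx => !(y.2 j) :=
        (continuous_of_discreteTopology (f := fun b : Bool => !b)).comp
          ((continuous_apply j).comp continuous_snd)
      exact h1.congr fun y => (flip_same j y).symm
    · exact ((continuous_apply j).comp continuous_snd).congr fun y => (flip_ne y h).symm

theorem dense_preimage (i : Option Ix) {U : Set Tx} (hU : Dense U) : Dense (flip i ⁻¹' U) := by
  let e : Tx ≃ₜ Tx := ⟨⟨flip i, flip i, flip_flip i, flip_flip i⟩, continuous_flip i,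
    continuous_flip i⟩
  exact hU.preimage e.isOpenMap

/-- the filter generated by the dense open sets -/
def fil : Filter Tx where
  sets := {s | ∃ U : Set Tx, IsOpen U ∧ Dense U ∧ ∃ n : ℕ, U ∩ {y | n ≤ y.1} ⊆ s}
  univ_sets := ⟨univ, isOpen_univ, dense_univ, 0, subset_univ _⟩
  sets_of_superset := by
    rintro s t ⟨U, h1, h2, n, h3⟩ hst
    exact ⟨U, h1, h2, n, h3.trans hst⟩
  inter_sets := by
    rintro s t ⟨U, h1, h2, n, h3⟩ ⟨V, h1', h2', n', h3'⟩
    refine ⟨U ∩ V, h1.inter h1', h2.inter_of_isOpen_left h2' h1, max n n', fun y hy => ⟨h3 ?_,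
      h3' ?_⟩⟩
    · exact ⟨hy.1.1, (le_max_left n n').trans hy.2⟩
    · exact ⟨hy.1.2, (le_max_right n n').trans hy.2⟩

theorem isOpen_ge (n : ℕ) : IsOpen {y : Tx | n ≤ y.1} :=
  (isOpen_discrete {m | n ≤ m}).preimage continuous_fst

instance : fil.NeBot := by
  rw [Filter.neBot_iff]
  intro h
  have h1 : (∅ : Set Tx) ∈ fil := by
    rw [h]
    exact mem_bot
  obtain ⟨U, h1, h2, n, h3⟩ := h1
  obtain ⟨y, hy, hyU⟩ := h2.inter_open_nonempty _ (isOpen_ge n) ⟨(n, fun _ => true), le_refl n⟩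
  exact h3 ⟨hyU, hy⟩

/-- the ultrafilter -/
noncomputable def uf : Ultrafilter Tx := Ultrafilter.of fil

theorem dense_mem {U : Set Tx} (h : IsOpen U) (h' : Dense U) : U ∈ uf :=
  Ultrafilter.of_le fil ⟨U, h, h', 0, fun _ hy => hy.1⟩

theorem ge_mem (n : ℕ) : {y : Tx | n ≤ y.1} ∈ uf :=
  Ultrafilter.of_le fil ⟨univ, isOpen_univ, dense_univ, n, fun _ hy => hy.2⟩

theorem dense_mem' (i : Option Ix) {U : Set Tx} (h : IsOpen U) (h' : Dense U) :
    flip i ⁻¹' U ∈ uf :=
  dense_mem (h.preimage (continuous_flip i)) (dense_preimage i h')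

theorem mem_or (i : Option Ix) {U V : Set Tx} (hU : IsOpen U) (hV : IsOpen V)
    (h : Dense (U ∪ V)) : flip i ⁻¹' U ∈ uf ∨ flip i ⁻¹' V ∈ uf := by
  have h1 := dense_mem' i (hU.union hV) h
  rw [preimage_union, Ultrafilter.union_mem_iff] at h1
  exact h1

theorem dense_union_compl_closure (U : Set Tx) : Dense (U ∪ (closure U)ᶜ) := by
  rw [dense_iff_inter_open]
  intro O hO hne
  by_cases h : (O ∩ U).Nonempty
  · exact h.mono (inter_subset_inter_right _ subset_union_left)
  · obtain ⟨y, hy⟩ := hne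
    refine ⟨y, hy, Or.inr fun h1 => h ?_⟩
    exact mem_closure_iff.1 h1 O hO hy

/-- if `U'` is dense in `U` -/
theorem mem_of_dense (i : Option Ix) {U U' : Set Tx} (hU' : IsOpen U')
    (hd : U ⊆ closure U') (h : flip i ⁻¹' U ∈ uf) : flip i ⁻¹' U' ∈ uf := by
  rcases mem_or i hU' isClosed_closure.isOpen_compl (dense_union_compl_closure U') with h1 | h1
  · exact h1
  · exfalso
    obtain ⟨y, hy, hy'⟩ := Ultrafilter.nonempty_of_mem (Filter.inter_mem h h1)
    exact hy' (hd hy)

theorem conv_aux {U : Set Tx} (hU : IsOpen U) :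
    {i : Ix | ¬ (flip (some i) ⁻¹' U ∈ uf ↔ U ∈ uf)}.Countable := by
  classical
  have h1 : ∀ q : Tx, ∃ F : Finset Ix, q ∈ U → box q F ⊆ U := by
    intro q
    by_cases h : q ∈ U
    · obtain ⟨F, hF⟩ := exists_box hU h
      exact ⟨F, fun _ => hF⟩
    · exact ⟨∅, fun h' => absurd h' h⟩
  choose F hF using h1
  let U' : Set Tx := ⋃ q ∈ Q0 ∩ U, box q (F q)
  have hU' : IsOpen U' := isOpen_biUnion fun q _ => isOpen_box _ _
  have hsub : U' ⊆ U := iUnion₂_subset fun q hq => hF q hq.2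
  have hd : U ⊆ closure U' := by
    intro y hy
    rw [mem_closure_iff]
    intro O hO hyO
    obtain ⟨q, hq, hqO⟩ := dense_Q0 (hO.inter hU) ⟨y, hyO, hy⟩
    exact ⟨q, hqO.1, mem_iUnion₂.2 ⟨q, ⟨hq, hqO.2⟩, rfl, fun _ _ => rfl⟩⟩
  have key : ∀ i : Option Ix, flip i ⁻¹' U ∈ uf ↔ flip i ⁻¹' U' ∈ uf := fun i =>
    ⟨mem_of_dense i hU' hd, fun h => Filter.mem_of_superset h (preimage_mono hsub)⟩
  refine Set.Countable.mono ?_ ((countable_Q0.mono inter_subset_left).biUnion
    (t := fun q (_ : q ∈ Q0 ∩ U) => (F q : Set Ix)) fun q _ => (F q).countable_toSet)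
  intro i hi
  by_contra hcon
  apply hi
  have h2 : flip (some i) ⁻¹' U' = U' := by
    have h3 : ∀ y, y ∈ U' → flip (some i) y ∈ U' := by
      intro y hy
      obtain ⟨q, hq, hy'⟩ := mem_iUnion₂.1 hy
      refine mem_iUnion₂.2 ⟨q, hq, hy'.1, fun j hj => ?_⟩
      have h4 : j ≠ i := by
        rintro rfl
        exact hcon (mem_iUnion₂.2 ⟨q, hq, hj⟩)
      rw [← hy'.2 j hj]
      exact flip_ne y h4
    ext y
    constructor
    · intro hy
      have h4 := h3 _ hy
      rwa [flip_flip] at h4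
    · exact h3 y
  have h3 := key (some i)
  have h4 := key none
  rw [h2] at h3
  exact h3.trans h4.symm

/-- the trace on the dense set -/
theorem closure_eq_of_trace {U V : Set Tx} (hU : IsOpen U)
    (h : (Subtype.val ⁻¹' U : Set Q0) ⊆ Subtype.val ⁻¹' V) : U ⊆ closure V := by
  intro y hy
  rw [mem_closure_iff]
  intro O hO hyO
  obtain ⟨q, hq, hqO⟩ := dense_Q0 (hO.inter hU) ⟨y, hyO, hy⟩
  exact ⟨q, hqO.1, @h ⟨q, hq⟩ hqO.2⟩

/-- The system of filters. -/
noncomputable def theSys : Sys Q0 Ix where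
  G i := {O | ∃ U : Set Tx, IsOpen U ∧ flip i ⁻¹' U ∈ uf ∧ O = Subtype.val ⁻¹' U}
  isOpen' := by
    rintro i _ ⟨U, hU, -, rfl⟩
    exact hU.preimage continuous_subtype_val
  univ' := fun i => ⟨univ, isOpen_univ, Filter.univ_mem, rfl⟩
  inter' := by
    rintro i _ _ ⟨U, hU, h, rfl⟩ ⟨U', hU', h', rfl⟩
    exact ⟨U ∩ U', hU.inter hU', Filter.inter_mem h h', rfl⟩
  nonempty' := by
    rintro i _ ⟨U, hU, h, rfl⟩
    obtain ⟨y, hy⟩ := Ultrafilter.nonempty_of_mem h
    obtain ⟨q, hq, hqU⟩ := dense_Q0 hU ⟨_, hy⟩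
    exact ⟨⟨q, hq⟩, hqU⟩
  mono' := by
    rintro i _ O' ⟨U, hU, h, rfl⟩ hsub hO'
    obtain ⟨V, hV, rfl⟩ := isOpen_induced_iff.1 hO'
    exact ⟨V, hV, mem_of_dense i hV (closure_eq_of_trace hU hsub) h, rfl⟩
  sep' := by
    intro i j hij
    -- it suffices to find a coordinate
    have key : ∀ (a : Ix) (j : Option Ix), j ≠ some a → ∃ U V : Set Tx, IsOpen U ∧ IsOpen V ∧
        flip (some a) ⁻¹' U ∈ uf ∧ flip j ⁻¹' V ∈ uf ∧ Disjoint U V := by
      intro a j hj
      have hop : ∀ b : Bool, IsOpen {y : Tx | y.2 a = b} := fun b =>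
        (isOpen_discrete ({b} : Set Bool)).preimage
          (f := fun y : Tx => y.2 a) ((continuous_apply a).comp continuous_snd)
      have h1 : ∀ b, flip (some a) ⁻¹' {y : Tx | y.2 a = b} = {y : Tx | y.2 a = !b} := by
        intro b
        ext y
        have h2 : (flip (some a) y).2 a = !(y.2 a) := flip_same a y
        show (flip (some a) y).2 a = b ↔ y.2 a = !b
        rw [h2]
        cases b <;> cases y.2 a <;> decide
      have h2 : ∀ b, flip j ⁻¹' {y : Tx | y.2 a = b} = {y : Tx | y.2 a = b} := by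
        intro b
        ext y
        have h3 : (flip j y).2 a = y.2 a := by
          rcases j with _ | j
          · rfl
          · exact flip_ne y (fun h => hj (by rw [h]))
        show (flip j y).2 a = b ↔ y.2 a = b
        rw [h3]
      obtain ⟨b, hb⟩ : ∃ b, {y : Tx | y.2 a = b} ∈ uf := by
        have h3 : {y : Tx | y.2 a = true} ∪ {y : Tx | y.2 a = false} ∈ uf := by
          refine Filter.mem_of_superset Filter.univ_mem fun y _ => ?_
          rcases Bool.eq_false_or_eq_true (y.2 a) with h | h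
          · exact Or.inl h
          · exact Or.inr h
        rcases Ultrafilter.union_mem_iff.1 h3 with h | h
        · exact ⟨_, h⟩
        · exact ⟨_, h⟩
      refine ⟨{y | y.2 a = !b}, {y | y.2 a = b}, hop _, hop _, ?_, ?_, ?_⟩
      · rw [h1, Bool.not_not]
        exact hb
      · rw [h2]
        exact hb
      · rw [Set.disjoint_left]
        intro y hy hy'
        have hy : y.2 a = !b := hy
        have hy' : y.2 a = b := hy'
        rw [hy'] at hy
        cases b <;> cases hy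
    have fin : ∀ i j : Option Ix, (∃ U V : Set Tx, IsOpen U ∧ IsOpen V ∧
        flip i ⁻¹' U ∈ uf ∧ flip j ⁻¹' V ∈ uf ∧ Disjoint U V) →
        ∃ O ∈ {O : Set Q0 | ∃ U : Set Tx, IsOpen U ∧ flip i ⁻¹' U ∈ uf ∧ O = Subtype.val ⁻¹' U},
        ∃ O' ∈ {O : Set Q0 | ∃ U : Set Tx, IsOpen U ∧ flip j ⁻¹' U ∈ uf ∧ O = Subtype.val ⁻¹' U},
        Disjoint O O' := by
      rintro i j ⟨U, V, hU, hV, h1, h2, h3⟩
      exact ⟨_, ⟨U, hU, h1, rfl⟩, _, ⟨V, hV, h2, rfl⟩, h3.preimage _⟩
    rcases i with _ | a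
    · rcases j with _ | b
      · exact absurd rfl hij
      · obtain ⟨U, V, h1, h2, h3, h4, h5⟩ := key b none hij
        exact fin _ _ ⟨V, U, h2, h1, h4, h3, h5.symm⟩
    · exact fin _ _ (key a j (Ne.symm hij))
  free' := by
    intro q i
    refine ⟨Subtype.val ⁻¹' {y : Tx | y.1 = q.1.1}, ?_, rfl,
      Subtype.val ⁻¹' {y : Tx | q.1.1 + 1 ≤ y.1}, ⟨_, isOpen_ge _, ?_, rfl⟩, ?_⟩
    · exact ((isOpen_discrete {q.1.1}).preimage continuous_fst).preimage continuous_subtype_val
    · refine Filter.mem_of_superset (ge_mem (q.1.1 + 1)) fun y hy => ?_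
      have hy : q.1.1 + 1 ≤ y.1 := hy
      show q.1.1 + 1 ≤ (flip i y).1
      rw [flip_fst]
      exact hy
    · rw [Set.disjoint_left]
      intro y hy hy'
      have hy : y.1.1 = q.1.1 := hy
      have hy' : q.1.1 + 1 ≤ y.1.1 := hy'
      omega
  max' := by
    intro i O hO
    obtain ⟨U, hU, rfl⟩ := isOpen_induced_iff.1 hO
    rcases mem_or i hU isClosed_closure.isOpen_compl (dense_union_compl_closure U) with h | h
    · exact Or.inl ⟨U, hU, h, rfl⟩
    · right
      refine ⟨(closure U)ᶜ, isClosed_closure.isOpen_compl, h, ?_⟩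
      rw [preimage_compl]
      congr 1
      ext q
      rw [mem_preimage, mem_closure_iff, mem_closure_iff]
      constructor
      · intro h O hO hq
        obtain ⟨y, hy, hy'⟩ := h _ (hO.preimage continuous_subtype_val) hq
        exact ⟨y.1, hy, hy'⟩
      · intro h O hO hq
        obtain ⟨V, hV, rfl⟩ := isOpen_induced_iff.1 hO
        obtain ⟨y, hy, hyU⟩ := h V hV hq
        obtain ⟨q', hq', hq''⟩ := dense_Q0 (hV.inter hU) ⟨y, hy, hyU⟩
        exact ⟨⟨q', hq'⟩, hq''.1, hq''.2⟩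
  conv' := by
    intro O hO
    obtain ⟨U, hU, rfl⟩ := isOpen_induced_iff.1 hO
    have h1 : ∀ i : Option Ix, ((Subtype.val ⁻¹' U : Set Q0) ∈
        {O : Set Q0 | ∃ U : Set Tx, IsOpen U ∧ flip i ⁻¹' U ∈ uf ∧ O = Subtype.val ⁻¹' U}) ↔
        flip i ⁻¹' U ∈ uf := by
      intro i
      constructor
      · rintro ⟨V, hV, h, h'⟩
        exact mem_of_dense i hU (closure_eq_of_trace hV h'.ge) h
      · exact fun h => ⟨U, hU, h, rfl⟩
    refine Set.Countable.mono (fun i hi => ?_) (conv_aux hU)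
    intro h
    apply hi
    rw [h1, h1]
    exact h

end Pool.Agent.V11242.QC
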