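import Mathlib
import Pool.Agent.V11242.QC.Sys

/-!
# An uncountable Hausdorff space which is not Lusin and has a Fréchet–Urysohn `Q_p`
-/

set_option autoImplicit false

namespace Pool.Agent.V11242.QC

open Set Filter Topology

variable {Q I : Type} [TopologicalSpace Q] (S : Sys Q I)

theorem Sys.mem_of_value {g : S.X → ℝ} (hg : QuasiCont g) {i : Option I} {V : Set ℝ}
    (hV : IsOpen V) (h : g (S.inR i) ∈ V) : interior {q : Q | g (S.inQ q) ∈ V} ∈ S.G i := by
  rcases S.max' i _ isOpen_interior with h1 | h1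
  · exact h1
  · obtain ⟨q, hq, hq'⟩ := S.quasi hg hV h h1
    exact absurd (subset_closure hq') hq

theorem Sys.countable_ne {g : S.X → ℝ} (hg : QuasiCont g) :
    {i : I | g (S.inR (some i)) ≠ g (S.inR none)}.Countable := by
  have key : ∀ (V : Set ℝ) (i : I), IsOpen V →
      (interior {q : Q | g (S.inQ q) ∈ V} ∈ S.G (some i) ↔
        interior {q : Q | g (S.inQ q) ∈ V} ∈ S.G none) →
      g (S.inR (some i)) ∈ V → ∀ V' : Set ℝ, IsOpen V' → Disjoint V V' →
        g (S.inR none) ∈ V' → False := by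
    intro V i hV h1 h2 V' hV' hd h3
    have h4 := h1.1 (S.mem_of_value hg hV h2)
    have h5 := S.mem_of_value hg hV' h3
    obtain ⟨q, hq, hq'⟩ := S.nonempty' _ _ (S.inter' _ _ _ h4 h5)
    have h6 : g (S.inQ q) ∈ V := (interior_subset hq : q ∈ {q : Q | g (S.inQ q) ∈ V})
    have h7 : g (S.inQ q) ∈ V' := (interior_subset hq' : q ∈ {q : Q | g (S.inQ q) ∈ V'})
    exact Set.disjoint_left.1 hd h6 h7
  refine Set.Countable.mono ?_ (countable_iUnion fun c : ℚ =>
    (S.conv' (interior {q : Q | g (S.inQ q) ∈ Iio (c : ℝ)}) isOpen_interior).union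
      (S.conv' (interior {q : Q | g (S.inQ q) ∈ Ioi (c : ℝ)}) isOpen_interior))
  intro i hi
  by_contra hcon
  rw [mem_iUnion, not_exists] at hcon
  rcases lt_or_gt_of_ne hi with h | h
  · obtain ⟨c, hc, hc'⟩ := exists_rat_btwn h
    have h1 := fun h => hcon c (Or.inl h)
    have h1 := not_not.1 h1
    exact key _ i isOpen_Iio h1 hc (Ioi (c : ℝ)) isOpen_Ioi
      (Set.disjoint_left.2 fun x (hx : x < c) (hx' : (c : ℝ) < x) => lt_asymm hx hx') hc'
  · obtain ⟨c, hc, hc'⟩ := exists_rat_btwn h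
    have h1 := fun h => hcon c (Or.inr h)
    have h1 := not_not.1 h1
    exact key _ i isOpen_Ioi h1 hc' (Iio (c : ℝ)) isOpen_Iio
      (Set.disjoint_left.2 fun x (hx : (c : ℝ) < x) (hx' : x < c) => lt_asymm hx hx') hc

theorem Sys.isFU [Countable Q] : IsFU (Qp S.X) := by
  refine fu_of (range S.inQ) (countable_range _) (S.inR none) fun g hg => ?_
  refine ((S.countable_ne hg).image fun i => S.inR (some i)).mono ?_
  rintro x ⟨hx, hx'⟩
  rcases S.cases x with ⟨q, rfl⟩ | ⟨i, rfl⟩
  · exact absurd ⟨q, rfl⟩ hx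
  · rcases i with _ | i
    · exact absurd rfl hx'
    · exact ⟨i, hx', rfl⟩

theorem Sys.not_countable (hI : ¬ Countable I) : ¬ (range S.inR).Countable := by
  intro h
  apply hI
  have h1 : (univ : Set I).Countable := by
    have h2 : ((fun i : I => S.inR (some i)) ⁻¹' range S.inR).Countable :=
      h.preimage_of_injOn (fun i _ j _ h => Option.some.inj (S.inR_inj h))
    refine h2.mono fun i _ => ?_
    exact mem_range_self (some i)
  exact countable_univ_iff.1 h1

theorem not_countable_Ix : ¬ Countable Ix := by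
  intro h
  have h1 : Cardinal.mk Ix ≤ Cardinal.aleph0 := Cardinal.mk_le_aleph0
  have h2 : Cardinal.mk Ix = Cardinal.continuum := by
    rw [Cardinal.mk_pi]
    simp
  rw [h2] at h1
  exact absurd h1 (not_le.2 Cardinal.aleph0_lt_continuum)

instance : Countable Q0 := countable_Q0.to_subtype

theorem main_notLusin : ∃ (X : Type) (_ : TopologicalSpace X), T2Space X ∧
    (∃ D : Set X, D.Countable ∧ IsOpen D ∧ Dense D) ∧
    ¬ (univ : Set X).Countable ∧ IsFU (Qp X) ∧
    (∃ N : Set X, IsNowhereDense N ∧ ¬ N.Countable) ∧ ¬ IsLusin X := by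
  have h1 := theSys.not_countable not_countable_Ix
  refine ⟨theSys.X, inferInstance, theSys.t2, ⟨range theSys.inQ, countable_range _, ?_, ?_⟩, ?_,
    theSys.isFU, ⟨_, theSys.nowhereDense_inR, h1⟩, ?_⟩
  · rw [← image_univ]
    exact theSys.isOpen_image isOpen_univ
  · rw [dense_iff_inter_open]
    intro O hO hne
    obtain ⟨q, hq⟩ := theSys.nonempty_trace hO hne
    exact ⟨_, hq, ⟨q, rfl⟩⟩
  · exact fun h => h1 (h.mono (subset_univ _))
  · exact fun h => h1 (h.2.1 _ theSys.nowhereDense_inR)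

end Pool.Agent.V11242.QC
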