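import Mathlib
import Pool.Agent.V11242.QC.NotLusin

/-!
# A space with `S₁(Ωˢ, Γˢ)` such that `Q_p` is not Fréchet–Urysohn
-/

set_option autoImplicit false
set_option linter.unusedSectionVars false

namespace Pool.Agent.V11242.QC

open Set Filter Topology

section Gen

variable {X : Type} [TopologicalSpace X]

/-- A criterion for `S₁(Ωˢ, Γˢ)`. -/
theorem s1_of (r : X) (D : Set X) (hD : D.Countable) (Y₀ : Finset X)
    (h : ∀ A : Set X, MinBdd A → (∀ y ∈ Y₀, y ∈ A) → {x | x ∉ D ∧ x ∉ A}.Countable) : S1' X := by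
  classical
  intro 𝒰 h𝒰
  have h1 : ∀ (n : ℕ) (F : Finset X), ∃ U ∈ 𝒰 n, ∀ x ∈ F ∪ Y₀, x ∈ U := fun n F =>
    (h𝒰 n).2 (F ∪ Y₀)
  choose c hc hc' using h1
  obtain ⟨Y, F, hDY, hr, hY, hYJ, hF⟩ := diagonal (σ := {A : Set X // MinBdd A ∧ ∀ y ∈ Y₀, y ∈ A})
    r D hD (fun n F => ⟨c n F, (h𝒰 n).1 _ (hc n F), fun y hy => hc' n F y
      (Finset.mem_union_right _ hy)⟩) (fun A => {x | x ∉ D ∧ x ∉ A.1})
    (fun A => h A.1 A.2.1 A.2.2)
  have h2 : ∀ x, ∃ m, ∀ n, m ≤ n → x ∈ c n (F n) := by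
    intro x
    by_cases hx : x ∈ Y
    · obtain ⟨m, hm⟩ := hF x hx
      exact ⟨m, fun n hn => hc' n (F n) x (Finset.mem_union_left _ (hm n hn))⟩
    · refine ⟨0, fun n _ => ?_⟩
      by_contra h3
      exact hx (hYJ n ⟨fun h => hx (hDY h), h3⟩)
  have h3 : ∀ x, {n | x ∉ c n (F n)}.Finite := by
    intro x
    obtain ⟨m, hm⟩ := h2 x
    refine (Set.finite_lt_nat m).subset fun n hn => ?_
    by_contra h4
    exact hn (hm n (not_lt.1 h4))
  refine ⟨fun n => c n (F n), fun n => hc _ _, ⟨?_, ?_, ?_⟩, h3⟩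
  · rintro _ ⟨n, rfl⟩
    exact (h𝒰 n).1 _ (hc n (F n))
  · intro x
    obtain ⟨m, hm⟩ := h2 x
    exact ⟨_, ⟨m, rfl⟩, hm m le_rfl⟩
  · intro x
    refine ((h3 x).image fun n => c n (F n)).subset ?_
    rintro _ ⟨⟨n, rfl⟩, hn⟩
    exact ⟨n, hn, rfl⟩

theorem S1'.s1 (h : S1' X) : S1 X := fun 𝒰 h𝒰 => by
  obtain ⟨U, h1, h2, -⟩ := h 𝒰 h𝒰
  exact ⟨U, h1, h2⟩

theorem mem_closure_of_eq {A : Set (Qp X)} {f : Qp X}
    (h : ∀ F : Finset X, ∃ g ∈ A, ∀ x ∈ F, g.1 x = f.1 x) : f ∈ closure A :=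
  mem_closure_of_exists fun F ε hε => by
    obtain ⟨g, hg, hg'⟩ := h F
    exact ⟨g, hg, fun x hx => by rw [hg' x hx, sub_self, abs_zero]; exact hε⟩

end Gen

section Two

variable {Q I : Type} [TopologicalSpace Q] (S : Sys Q I)

/-- the part of a subset of two copies of `Q` in the copy `b` -/
def part (O : Set (Q × Bool)) (b : Bool) : Set Q := {q | (q, b) ∈ O}

theorem part_open {O : Set (Q × Bool)} (hO : IsOpen O) (b : Bool) : IsOpen (part O b) :=
  hO.preimage (by fun_prop : Continuous fun q : Q => (q, b))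

theorem open_of_part {O : Set (Q × Bool)} (h : ∀ b, IsOpen (part O b)) : IsOpen O := by
  rw [isOpen_prod_iff]
  intro q b hq
  exact ⟨part O b, {b}, h b, isOpen_discrete _, hq, rfl, by
    rintro ⟨q', b'⟩ ⟨h1, h2⟩
    have h2 : b' = b := h2
    rw [h2]
    exact h1⟩

/-- the copy of a set -/
def copy (O : Set Q) (b : Bool) : Set (Q × Bool) := {x | x.1 ∈ O ∧ x.2 = b}

theorem isOpen_copy {O : Set Q} (hO : IsOpen O) (b : Bool) : IsOpen (copy O b) :=
  (hO.preimage continuous_fst).inter ((isOpen_discrete {b}).preimage continuous_snd)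

theorem part_copy (O : Set Q) (b : Bool) : part (copy O b) b = O := by
  ext q
  exact ⟨fun h => h.1, fun h => ⟨h, rfl⟩⟩

/-- the both copies of the same or of different sets -/
def both (O : Bool → Set Q) : Set (Q × Bool) := {x | x.1 ∈ O x.2}

theorem part_both (O : Bool → Set Q) (b : Bool) : part (both O) b = O b := rfl

/-- the filters -/
def G2 : Bool ⊕ I → Set (Set (Q × Bool))
  | Sum.inl b => {O | IsOpen O ∧ part O b ∈ S.G none}
  | Sum.inr i => {O | IsOpen O ∧ ∀ b, part O b ∈ S.G (some i)}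

/-- The extension of two copies of `Q`. -/
def E2 : Ext (Q × Bool) (Bool ⊕ I) where
  G := G2 S
  isOpen' := by
    rintro (b | i) O h
    · exact h.1
    · exact h.1
  univ' := by
    rintro (b | i)
    · exact ⟨isOpen_univ, S.univ' none⟩
    · exact ⟨isOpen_univ, fun b => S.univ' _⟩
  inter' := by
    rintro (b | i) O O' h h'
    · exact ⟨h.1.inter h'.1, S.inter' _ _ _ h.2 h'.2⟩
    · exact ⟨h.1.inter h'.1, fun b => S.inter' _ _ _ (h.2 b) (h'.2 b)⟩
  nonempty' := by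
    rintro (b | i) O h
    · obtain ⟨q, hq⟩ := S.nonempty' _ _ h.2
      exact ⟨_, hq⟩
    · obtain ⟨q, hq⟩ := S.nonempty' _ _ (h.2 true)
      exact ⟨_, hq⟩
  mono' := by
    rintro (b | i) O O' h hsub hO'
    · exact ⟨hO', S.mono' _ _ _ h.2 (fun q hq => hsub hq) (part_open hO' b)⟩
    · exact ⟨hO', fun b => S.mono' _ _ _ (h.2 b) (fun q hq => hsub hq) (part_open hO' b)⟩
  sep' := by
    have key : ∀ (b : Bool) (i : I), ∃ O ∈ G2 S (Sum.inl b), ∃ O' ∈ G2 S (Sum.inr i),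
        Disjoint O O' := by
      intro b i
      obtain ⟨O, hO, O', hO', hd⟩ := S.sep' none (some i) (by simp)
      refine ⟨copy O b, ⟨isOpen_copy (S.isOpen' _ _ hO) b, ?_⟩, both fun _ => O',
        ⟨open_of_part fun b => S.isOpen' _ _ hO', fun b => hO'⟩, ?_⟩
      · rw [part_copy]
        exact hO
      · rw [Set.disjoint_left]
        rintro ⟨q, b'⟩ h1 h2
        exact Set.disjoint_left.1 hd h1.1 h2
    rintro (b | i) (b' | i') hne
    · have hb : b ≠ b' := fun h => hne (by rw [h])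
      refine ⟨copy univ b, ⟨isOpen_copy isOpen_univ b, ?_⟩, copy univ b',
        ⟨isOpen_copy isOpen_univ b', ?_⟩, ?_⟩
      · rw [part_copy]
        exact S.univ' _
      · rw [part_copy]
        exact S.univ' _
      · rw [Set.disjoint_left]
        rintro ⟨q, b''⟩ h1 h2
        exact hb (h1.2.symm.trans h2.2)
    · exact key b i'
    · obtain ⟨O, hO, O', hO', hd⟩ := key b' i
      exact ⟨O', hO', O, hO, hd.symm⟩
    · obtain ⟨O, hO, O', hO', hd⟩ := S.sep' (some i) (some i') (by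
        intro h
        exact hne (by rw [Option.some.inj h]))
      refine ⟨both fun _ => O, ⟨open_of_part fun b => S.isOpen' _ _ hO, fun b => hO⟩,
        both fun _ => O', ⟨open_of_part fun b => S.isOpen' _ _ hO', fun b => hO'⟩, ?_⟩
      rw [Set.disjoint_left]
      rintro ⟨q, b⟩ h1 h2
      exact Set.disjoint_left.1 hd h1 h2
  free' := by
    rintro ⟨q, b⟩ (b' | i)
    · by_cases hb : b = b'
      · subst hb
        obtain ⟨O, hO, hq, O', hO', hd⟩ := S.free' q none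
        refine ⟨copy O b, isOpen_copy hO b, ⟨hq, rfl⟩, copy O' b,
          ⟨isOpen_copy (S.isOpen' _ _ hO') b, ?_⟩, ?_⟩
        · rw [part_copy]
          exact hO'
        · rw [Set.disjoint_left]
          rintro ⟨q, b''⟩ h1 h2
          exact Set.disjoint_left.1 hd h1.1 h2.1
      · refine ⟨copy univ b, isOpen_copy isOpen_univ b, ⟨mem_univ _, rfl⟩, copy univ b',
          ⟨isOpen_copy isOpen_univ b', ?_⟩, ?_⟩
        · rw [part_copy]
          exact S.univ' _
        · rw [Set.disjoint_left]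
          rintro ⟨q, b''⟩ h1 h2
          exact hb (h1.2.symm.trans h2.2)
    · obtain ⟨O, hO, hq, O', hO', hd⟩ := S.free' q (some i)
      refine ⟨copy O b, isOpen_copy hO b, ⟨hq, rfl⟩, both fun _ => O',
        ⟨open_of_part fun b => S.isOpen' _ _ hO', fun b => hO'⟩, ?_⟩
      rw [Set.disjoint_left]
      rintro ⟨q, b''⟩ h1 h2
      exact Set.disjoint_left.1 hd h1.1 h2

theorem mem_G2_inl {b : Bool} {O : Set (Q × Bool)} :
    O ∈ (E2 S).G (Sum.inl b) ↔ IsOpen O ∧ part O b ∈ S.G none := Iff.rfl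

theorem mem_G2_inr {i : I} {O : Set (Q × Bool)} :
    O ∈ (E2 S).G (Sum.inr i) ↔ IsOpen O ∧ ∀ b, part O b ∈ S.G (some i) := Iff.rfl

/-- a minimally bounded set which contains the two limits contains almost all new points -/
theorem countable_notMem {A : Set (E2 S).X} (hA : MinBdd A)
    (h : ∀ b, (E2 S).inR (Sum.inl b) ∈ A) :
    {i : I | (E2 S).inR (Sum.inr i) ∉ A}.Countable := by
  have hop : ∀ b, IsOpen (part ((E2 S).inQ ⁻¹' interior A) b) := fun b =>
    part_open (((E2 S).isOpen_iff.1 isOpen_interior).1) b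
  have h1 : ∀ b, part ((E2 S).inQ ⁻¹' interior A) b ∈ S.G none := by
    intro b
    rcases S.max' none _ (hop b) with h1 | h1
    · exact h1
    · exfalso
      have h2 := ((E2 S).mem_closure_inR isOpen_interior).1 (hA.1 (h b))
        (copy (closure (part ((E2 S).inQ ⁻¹' interior A) b))ᶜ b)
        ((mem_G2_inl S).2 ⟨isOpen_copy isClosed_closure.isOpen_compl b, by
          rw [part_copy]; exact h1⟩)
      obtain ⟨⟨q, b'⟩, hq, hq'⟩ := h2
      obtain ⟨hq1, hq2⟩ := hq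
      have hq2 : b' = b := hq2
      subst hq2
      exact hq1 (subset_closure hq')
  refine Set.Countable.mono ?_ ((S.conv' _ (hop true)).union (S.conv' _ (hop false)))
  intro i hi
  by_contra hcon
  have h2 : ∀ b, part ((E2 S).inQ ⁻¹' interior A) b ∈ S.G (some i) := by
    intro b
    cases b with
    | true => exact (not_not.1 fun h => hcon (Or.inl h)).2 (h1 true)
    | false => exact (not_not.1 fun h => hcon (Or.inr h)).2 (h1 false)
  have h3 : (E2 S).inQ ⁻¹' interior A ∈ (E2 S).G (Sum.inr i) :=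
    (mem_G2_inr S).2 ⟨((E2 S).isOpen_iff.1 isOpen_interior).1, h2⟩
  apply hi
  apply hA.2
  rw [mem_interior]
  refine ⟨(E2 S).nb (Sum.inr i) ((E2 S).inQ ⁻¹' interior A), ?_, (E2 S).isOpen_nb h3,
    mem_insert _ _⟩
  have h4 : (E2 S).inR (Sum.inr i) ∈ closure (interior A) := by
    rw [(E2 S).mem_closure_inR isOpen_interior]
    intro O hO
    exact (E2 S).nonempty' _ _ ((E2 S).inter' _ _ _ hO h3)
  rintro x (rfl | ⟨q, hq, rfl⟩)
  · exact closure_mono interior_subset h4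
  · exact subset_closure (interior_subset hq)

theorem s1_E2 [Countable Q] : S1' (E2 S).X := by
  classical
  refine s1_of ((E2 S).inR (Sum.inl true)) (range (E2 S).inQ ∪
    {(E2 S).inR (Sum.inl true), (E2 S).inR (Sum.inl false)})
    ((countable_range _).union ((countable_singleton _).insert _))
    {(E2 S).inR (Sum.inl true), (E2 S).inR (Sum.inl false)} fun A hA hA' => ?_
  have h1 : ∀ b, (E2 S).inR (Sum.inl b) ∈ A := by
    intro b
    apply hA'
    cases b <;> simp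
  refine ((countable_notMem S hA h1).image fun i => (E2 S).inR (Sum.inr i)).mono ?_
  rintro x ⟨hx, hx'⟩
  rcases (E2 S).cases x with ⟨q, rfl⟩ | ⟨b | i, rfl⟩
  · exact absurd (Or.inl ⟨q, rfl⟩) hx
  · refine absurd (Or.inr ?_) hx
    cases b
    · exact Or.inr rfl
    · exact Or.inl rfl
  · exact ⟨i, hx', rfl⟩

open Classical in
/-- the functions -/
noncomputable def fn (Z : Set I) : (E2 S).X → ℝ := fun x =>
  if (∃ q, x = (E2 S).inQ (q, true)) ∨ x = (E2 S).inR (Sum.inl true) ∨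
    ∃ i ∈ Z, x = (E2 S).inR (Sum.inr i) then 1 else 0

theorem fn_inQ (Z : Set I) (q : Q) (b : Bool) :
    fn S Z ((E2 S).inQ (q, b)) = if b = true then 1 else 0 := by
  unfold fn
  congr 1
  rw [eq_iff_iff]
  constructor
  · rintro (⟨q', h⟩ | h | ⟨i, -, h⟩)
    · have h1 := (E2 S).inQ_inj h
      exact congrArg Prod.snd h1
    · exact absurd h ((E2 S).inQ_ne_inR _ _)
    · exact absurd h ((E2 S).inQ_ne_inR _ _)
  · intro h
    exact Or.inl ⟨q, by rw [h]⟩

theorem fn_inl (Z : Set I) (b : Bool) :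
    fn S Z ((E2 S).inR (Sum.inl b)) = if b = true then 1 else 0 := by
  unfold fn
  congr 1
  rw [eq_iff_iff]
  constructor
  · rintro (⟨q', h⟩ | h | ⟨i, -, h⟩)
    · exact absurd h.symm ((E2 S).inQ_ne_inR _ _)
    · exact Sum.inl.inj ((E2 S).inR_inj h)
    · cases (E2 S).inR_inj h
  · intro h
    exact Or.inr (Or.inl (by rw [h]))

open Classical in
theorem fn_inr (Z : Set I) (i : I) :
    fn S Z ((E2 S).inR (Sum.inr i)) = if i ∈ Z then 1 else 0 := by
  unfold fn
  congr 1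
  rw [eq_iff_iff]
  constructor
  · rintro (⟨q', h⟩ | h | ⟨j, hj, h⟩)
    · exact absurd h.symm ((E2 S).inQ_ne_inR _ _)
    · cases (E2 S).inR_inj h
    · rw [Sum.inr.inj ((E2 S).inR_inj h)]
      exact hj
  · intro h
    exact Or.inr (Or.inr ⟨i, h, rfl⟩)

theorem isOpen_sheet (b : Bool) : IsOpen ((E2 S).inQ '' copy univ b) :=
  (E2 S).isOpen_image (isOpen_copy isOpen_univ b)

theorem quasiCont_fn (Z : Set I) : QuasiCont (fn S Z) := by
  classical
  intro x U hU hx V hV hxV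
  obtain ⟨b, hb, hne⟩ : ∃ b : Bool, (fn S Z x = if b = true then 1 else 0) ∧
      (U ∩ ((E2 S).inQ '' copy univ b)).Nonempty := by
    have key : ∀ b, x ∈ closure ((E2 S).inQ '' copy univ b) →
        (U ∩ ((E2 S).inQ '' copy univ b)).Nonempty := fun b h => mem_closure_iff.1 h U hU hx
    rcases (E2 S).cases x with ⟨⟨q, b⟩, rfl⟩ | ⟨b | i, rfl⟩
    · exact ⟨b, fn_inQ S Z q b, key b (subset_closure ⟨_, ⟨mem_univ _, rfl⟩, rfl⟩)⟩
    · refine ⟨b, fn_inl S Z b, key b ?_⟩
      rw [(E2 S).mem_closure_inR (isOpen_sheet S b)]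
      intro O hO
      obtain ⟨q, hq⟩ := S.nonempty' _ _ ((mem_G2_inl S).1 hO).2
      exact ⟨(q, b), hq, ⟨_, ⟨mem_univ _, rfl⟩, rfl⟩⟩
    · have h1 : ∀ b, (E2 S).inR (Sum.inr i) ∈ closure ((E2 S).inQ '' copy univ b) := by
        intro b
        rw [(E2 S).mem_closure_inR (isOpen_sheet S b)]
        intro O hO
        obtain ⟨q, hq⟩ := S.nonempty' _ _ (((mem_G2_inr S).1 hO).2 b)
        exact ⟨(q, b), hq, ⟨_, ⟨mem_univ _, rfl⟩, rfl⟩⟩
      by_cases hi : i ∈ Z
      · refine ⟨true, ?_, key true (h1 true)⟩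
        rw [fn_inr, if_pos hi, if_pos rfl]
      · refine ⟨false, ?_, key false (h1 false)⟩
        rw [fn_inr, if_neg hi, if_neg (by simp)]
  refine ⟨_, hU.inter (isOpen_sheet S b), hne, inter_subset_left, ?_⟩
  rintro w ⟨-, ⟨⟨q, b'⟩, ⟨-, hb'⟩, rfl⟩⟩
  have hb' : b' = b := hb'
  rw [fn_inQ, hb', ← hb]
  exact hxV

theorem not_fu (hI : ¬ Countable I) : ∃ f : Qp (E2 S).X, ¬ IsFUAt (Qp (E2 S).X) f := by
  classical
  refine ⟨⟨fn S ∅, quasiCont_fn S ∅⟩, fun h => ?_⟩
  obtain ⟨u, hu, hlim⟩ := h {g | ∃ F : Finset I, g.1 = fn S (F : Set I)ᶜ} (by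
    apply mem_closure_of_eq
    intro F
    refine ⟨⟨fn S ((F.preimage (fun i : I => (E2 S).inR (Sum.inr i))
      (fun i _ j _ h => Sum.inr.inj ((E2 S).inR_inj h)) : Finset I) : Set I)ᶜ,
      quasiCont_fn S _⟩, ⟨_, rfl⟩, fun x hx => ?_⟩
    show fn S _ x = fn S ∅ x
    rcases (E2 S).cases x with ⟨⟨q, b⟩, rfl⟩ | ⟨b | i, rfl⟩
    · rw [fn_inQ, fn_inQ]
    · rw [fn_inl, fn_inl]
    · rw [fn_inr, fn_inr, if_neg (notMem_empty _), if_neg]
      rw [mem_compl_iff, not_not, Finset.mem_coe, Finset.mem_preimage]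
      exact hx)
  choose F hF using hu
  obtain ⟨i, hi⟩ : ∃ i, ∀ n, i ∉ F n := by
    by_contra hcon
    push Not at hcon
    apply hI
    have h1 : (univ : Set I).Countable :=
      (countable_iUnion fun n => (F n).countable_toSet).mono fun i _ => mem_iUnion.2 (hcon i)
    exact countable_univ_iff.1 h1
  rw [tendsto_subtype_rng, tendsto_pi_nhds] at hlim
  have h1 := hlim ((E2 S).inR (Sum.inr i))
  have h2 : (fun n => (u n).1 ((E2 S).inR (Sum.inr i))) = fun _ => (1 : ℝ) := by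
    funext n
    rw [hF, fn_inr, if_pos]
    exact fun h => hi n h
  have h3 : (⟨fn S ∅, quasiCont_fn S ∅⟩ : Qp (E2 S).X).1 ((E2 S).inR (Sum.inr i)) = 0 := by
    show fn S ∅ _ = 0
    rw [fn_inr, if_neg (notMem_empty _)]
  rw [h2, h3] at h1
  have h4 := tendsto_nhds_unique h1 tendsto_const_nhds
  exact zero_ne_one h4

end Two

theorem main_split : ∃ (X : Type) (_ : TopologicalSpace X), T2Space X ∧ S1 X ∧ S1' X ∧
    ∃ f : Qp X, ¬ IsFUAt (Qp X) f := by
  have h1 := s1_E2 theSys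
  exact ⟨(E2 theSys).X, inferInstance, (E2 theSys).t2, h1.s1, h1, not_fu theSys not_countable_Ix⟩

end Pool.Agent.V11242.QC
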