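import Mathlib
import Pool.Agent.V11242.QC.Base

/-!
# Open Whyburn spaces with `S₁(Ωˢ, Γˢ)`
-/

set_option autoImplicit false

namespace Pool.Agent.V11242.QC

open Set Filter Topology

variable {X : Type} [TopologicalSpace X]

/-! ### Minimally bounded sets -/

theorem minBdd_between {P V : Set X} (hP : IsOpen P) (h1 : interior (closure P) ⊆ V)
    (h2 : V ⊆ closure P) : MinBdd V := by
  constructor
  · refine h2.trans (closure_mono (interior_maximal ?_ hP))
    exact (hP.subset_interior_closure).trans h1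
  · refine (interior_mono ?_).trans h1
    exact closure_minimal h2 isClosed_closure

theorem minBdd_closure {P : Set X} (hP : IsOpen P) : MinBdd (closure P) :=
  minBdd_between hP interior_subset le_rfl

theorem minBdd_mod {U V W : Set X} (hU : MinBdd U) (hV : IsOpen V) (hW : IsOpen W) :
    MinBdd ((U \ closure V) ∪ closure W) := by
  constructor
  · rintro x (⟨hx, hx'⟩ | hx)
    · rw [mem_closure_iff]
      intro O hO hxO
      obtain ⟨y, ⟨hy1, hy2⟩, hy3⟩ := mem_closure_iff.1 (hU.1 hx) _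
        (hO.inter isClosed_closure.isOpen_compl) ⟨hxO, hx'⟩
      refine ⟨y, hy1, mem_interior.2 ⟨interior U ∩ (closure V)ᶜ, ?_,
        isOpen_interior.inter isClosed_closure.isOpen_compl, hy3, hy2⟩⟩
      exact fun z hz => Or.inl ⟨interior_subset hz.1, hz.2⟩
    · refine closure_mono (interior_maximal ?_ hW) hx
      exact fun z hz => Or.inr (subset_closure hz)
  · intro x hx
    by_contra hcon
    rw [mem_union, not_or] at hcon
    obtain ⟨hcon1, hcon2⟩ := hcon
    have hO : IsOpen (interior (closure ((U \ closure V) ∪ closure W)) ∩ (closure W)ᶜ) :=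
      isOpen_interior.inter isClosed_closure.isOpen_compl
    by_cases hxV : x ∈ closure V
    · obtain ⟨y, hy, hyV⟩ := mem_closure_iff.1 hxV _ hO ⟨hx, hcon2⟩
      obtain ⟨z, ⟨hz1, hz2⟩, hz3⟩ := mem_closure_iff.1 (interior_subset hy.1) _ (hO.inter hV)
        ⟨hy, hyV⟩
      rcases hz3 with hz3 | hz3
      · exact hz3.2 (subset_closure hz2)
      · exact hz1.2 hz3
    · have hxU : x ∉ U := fun h => hcon1 ⟨h, hxV⟩
      apply hxU
      apply hU.2
      refine mem_interior.2 ⟨_, ?_, hO.inter (isClosed_closure (s := V)).isOpen_compl,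
        ⟨hx, hcon2⟩, hxV⟩
      rintro y ⟨hy, hyV⟩
      rw [mem_closure_iff]
      intro G hG hyG
      obtain ⟨z, ⟨hz1, hz2⟩, hz3⟩ := mem_closure_iff.1 (interior_subset hy.1) _ (hG.inter hO)
        ⟨hyG, hy⟩
      rcases hz3 with hz3 | hz3
      · exact ⟨z, hz1, hz3.1⟩
      · exact absurd hz3 hz2.2

/-! ### Nowhere dense sets are countable -/

theorem exists_single [T1Space X] (hW : IsOpenWhyburn X) {N : Set X} (hN : IsClosed N)
    (hN' : interior N = ∅) (x : X) : ∃ B : Set X, IsOpen B ∧ x ∈ closure B ∧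
      closure B ∩ N ⊆ {x} := by
  have hA : IsOpen (N ∪ {x})ᶜ := (hN.union isClosed_singleton).isOpen_compl
  by_cases h : x ∈ closure (N ∪ {x})ᶜ
  · obtain ⟨B, hBA, hB, hB'⟩ := hW _ hA x ⟨h, fun h' => h' (Or.inr rfl)⟩
    have hxB : x ∈ closure B \ (N ∪ {x})ᶜ := by
      rw [hB']
      exact rfl
    refine ⟨B, hB, hxB.1, ?_⟩
    rintro y ⟨hy, hyN⟩
    rw [← hB']
    exact ⟨hy, fun h' => h' (Or.inl hyN)⟩
  · rw [mem_closure_iff] at h
    push Not at h
    obtain ⟨U, hU, hxU, hU'⟩ := h
    have h1 : U ⊆ N ∪ {x} := by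
      intro y hy
      by_contra hcon
      have : y ∈ U ∩ (N ∪ {x})ᶜ := ⟨hy, hcon⟩
      rw [hU'] at this
      exact this
    have hxN : x ∉ N := by
      intro hxN
      have h2 : U ⊆ N := fun y hy => by
        rcases h1 hy with h | h
        · exact h
        · rw [h]
          exact hxN
      have h3 : x ∈ interior N := mem_interior.2 ⟨U, h2, hU, hxU⟩
      rw [hN'] at h3
      exact h3
    have h2 : IsOpen ({x} : Set X) := by
      have h3 : U ∩ Nᶜ = {x} := by
        ext y
        constructor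
        · rintro ⟨hy, hyN⟩
          rcases h1 hy with h | h
          · exact absurd h hyN
          · exact h
        · intro hy
          rw [mem_singleton_iff.1 hy]
          exact ⟨hxU, hxN⟩
      rw [← h3]
      exact hU.inter hN.isOpen_compl
    refine ⟨{x}, h2, subset_closure rfl, ?_⟩
    rw [closure_singleton]
    exact inter_subset_left

theorem countable_of_closed [T1Space X] (hW : IsOpenWhyburn X) (hS : S1 X) {N : Set X}
    (hN : IsClosed N) (hN' : interior N = ∅) : N.Countable := by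
  choose B hB hxB hBN using exists_single hW hN hN'
  have hop : ∀ F : Finset X, IsOpen (⋃ x ∈ F, B x) := fun F => isOpen_biUnion fun x _ => hB x
  have hcl : ∀ F : Finset X, closure (⋃ x ∈ F, B x) = ⋃ x ∈ F, closure (B x) := fun F =>
    F.finite_toSet.closure_biUnion _
  obtain ⟨U, hU, -, hU', -⟩ := hS (fun _ => range fun F : Finset X => closure (⋃ x ∈ F, B x))
    (fun _ => ⟨by
      rintro _ ⟨F, rfl⟩
      exact minBdd_closure (hop F), fun F => ⟨_, ⟨F, rfl⟩, fun x hx => by
        show x ∈ closure (⋃ x ∈ F, B x)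
        rw [hcl]
        exact mem_iUnion₂.2 ⟨x, hx, hxB x⟩⟩⟩)
  choose F hF using hU
  have hF : ∀ n, closure (⋃ x ∈ F n, B x) = U n := hF
  refine (countable_iUnion fun n => (F n).countable_toSet).mono fun y hy => ?_
  obtain ⟨V, ⟨n, rfl⟩, hyV⟩ := hU' y
  rw [← hF, hcl] at hyV
  obtain ⟨x, hx, hyx⟩ := mem_iUnion₂.1 hyV
  have h1 : y = x := hBN x ⟨hyx, hy⟩
  rw [h1]
  exact mem_iUnion.2 ⟨n, hx⟩

/-! ### The stronger form of the selection principle -/

theorem s1'_of_s1 [T2Space X] [Infinite X]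
    (ha : ∀ N : Set X, IsClosed N → interior N = ∅ → N.Countable) (hS : S1 X) : S1' X := by
  classical
  intro 𝒰 h𝒰
  obtain ⟨O, hO1, hO2, hO3⟩ := exists_seq_infinite_isOpen_pairwise_disjoint X
  let W : ℕ → Set X := fun n => ⋃ m : ℕ, ⋃ _ : n < m, O m
  have hW : ∀ n, IsOpen (W n) := fun n => isOpen_iUnion fun m => isOpen_iUnion fun _ => hO2 m
  have hWm : ∀ n m, n ≤ m → W m ⊆ W n := by
    intro n m hnm x hx
    obtain ⟨k, hk, hx⟩ := mem_iUnion₂.1 hx
    exact mem_iUnion₂.2 ⟨k, hnm.trans_lt hk, hx⟩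
  have hWO : ∀ n, Disjoint (closure (W n)) (O n) := by
    intro n
    have h1 : Disjoint (W n) (O n) := by
      rw [Set.disjoint_left]
      intro x hx hx'
      obtain ⟨k, hk, hx⟩ := mem_iUnion₂.1 hx
      exact Set.disjoint_left.1 (hO3 (ne_of_gt hk)) hx hx'
    exact h1.closure_left (hO2 n)
  have hE : (⋂ n, closure (W n)).Countable := by
    refine ha _ (isClosed_iInter fun n => isClosed_closure) ?_
    rw [eq_empty_iff_forall_notMem]
    intro x hx
    have h1 : x ∈ closure (W 0) := mem_iInter.1 (interior_subset hx) 0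
    obtain ⟨y, hy, hy'⟩ := mem_closure_iff.1 h1 _ isOpen_interior hx
    obtain ⟨k, -, hyk⟩ := mem_iUnion₂.1 hy'
    exact Set.disjoint_left.1 (hWO k) (mem_iInter.1 (interior_subset hy) k) hyk
  obtain ⟨x0⟩ : Nonempty X := inferInstance
  obtain ⟨e, he⟩ := (hE.insert x0).exists_eq_range ⟨x0, mem_insert _ _⟩
  -- the new covers
  let 𝒱 : ℕ → Set (Set X) := fun n => {S | ∃ U ∈ 𝒰 n, (∀ k ≤ n, e k ∈ U) ∧ ∃ V : Set X, IsOpen V ∧
    V.Nonempty ∧ V ⊆ O n ∧ S = (U \ closure V) ∪ closure (W n)}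
  obtain ⟨S, hS1, hS2, hS3, hS4⟩ := hS 𝒱 (by
    intro n
    refine ⟨?_, fun F => ?_⟩
    · rintro _ ⟨U, hU, -, V, hV, -, -, rfl⟩
      exact minBdd_mod ((h𝒰 n).1 U hU) hV (hW n)
    · obtain ⟨U, hU, hFU⟩ := (h𝒰 n).2 (F ∪ (Finset.range (n + 1)).image e)
      obtain ⟨y, hy, hyF⟩ := (hO1 n).exists_notMem_finset F
      obtain ⟨G, H, hG, hH, hyG, hFH, hd⟩ : ∃ G H : Set X, IsOpen G ∧ IsOpen H ∧ y ∈ G ∧
          (F : Set X) ⊆ H ∧ Disjoint G H := by
        obtain ⟨G, H, h1, h2, h3, h4, h5⟩ := SeparatedNhds.of_finset_finset ({y} : Finset X) F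
          (Finset.disjoint_singleton_left.2 hyF)
        exact ⟨G, H, h1, h2, h3 (by simp), h4, h5⟩
      refine ⟨_, ⟨U, hU, fun k hk => hFU _ (Finset.mem_union_right _ (Finset.mem_image_of_mem _
        (Finset.mem_range.2 (Nat.lt_succ_of_le hk)))), G ∩ O n, hG.inter (hO2 n), ⟨y, hyG, hy⟩,
        inter_subset_right, rfl⟩, fun x hx => Or.inl ⟨hFU x (Finset.mem_union_left _ hx), ?_⟩⟩
      intro h1
      have h2 : x ∈ closure G := closure_mono inter_subset_left h1
      obtain ⟨z, hz, hz'⟩ := mem_closure_iff.1 h2 H hH (hFH hx)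
      exact Set.disjoint_left.1 hd hz' hz)
  choose U hU heU V hV hVne hVO hSU using hS1
  have hinj : Function.Injective S := by
    have h1 : ∀ n m, n < m → S n ≠ S m := by
      intro n m hnm h
      obtain ⟨y, hy⟩ := hVne m
      have h2 : y ∈ S n := by
        rw [hSU]
        exact Or.inr (subset_closure (mem_iUnion₂.2 ⟨m, hnm, hVO m hy⟩))
      rw [h, hSU] at h2
      rcases h2 with h2 | h2
      · exact h2.2 (subset_closure hy)
      · exact Set.disjoint_left.1 (hWO m) h2 (hVO m hy)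
    intro n m h
    rcases lt_trichotomy n m with h' | h' | h'
    · exact absurd h (h1 n m h')
    · exact h'
    · exact absurd h.symm (h1 m n h')
  have hfin : ∀ x, {n | x ∉ S n}.Finite := by
    intro x
    refine Set.Finite.of_finite_image ((hS4 x).subset ?_) hinj.injOn
    rintro _ ⟨n, hn, rfl⟩
    exact ⟨⟨n, rfl⟩, hn⟩
  have hfinU : ∀ x, {n | x ∉ U n}.Finite := by
    intro x
    by_cases hx : ∀ n, x ∈ closure (W n)
    · have h1 : x ∈ range e := by
        rw [← he]
        exact Or.inr (mem_iInter.2 hx)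
      obtain ⟨k, rfl⟩ := h1
      refine (Set.finite_lt_nat k).subset fun n hn => ?_
      by_contra h
      exact hn (heU n k (not_lt.1 h))
    · push Not at hx
      obtain ⟨k, hk⟩ := hx
      refine ((hfin x).union (Set.finite_lt_nat k)).subset fun n hn => ?_
      by_contra hcon
      rw [mem_union, not_or] at hcon
      have h1 : x ∈ S n := not_not.1 hcon.1
      have h2 : k ≤ n := not_lt.1 hcon.2
      rw [hSU] at h1
      rcases h1 with h1 | h1
      · exact hn h1.1
      · exact hk (closure_mono (hWm k n h2) h1)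
  refine ⟨U, hU, ⟨?_, ?_, ?_⟩, hfinU⟩
  · rintro _ ⟨n, rfl⟩
    exact (h𝒰 n).1 _ (hU n)
  · intro x
    obtain ⟨n, hn⟩ : ∃ n, n ∉ {n | x ∉ U n} := (hfinU x).exists_notMem
    exact ⟨_, ⟨n, rfl⟩, not_not.1 hn⟩
  · intro x
    refine ((hfinU x).image U).subset ?_
    rintro _ ⟨⟨n, rfl⟩, hn⟩
    exact ⟨n, hn, rfl⟩

/-! ### Separating the points of a nowhere dense set -/

theorem exists_pairs [T1Space X] (hW : IsOpenWhyburn X) {N : Set X} (hN : IsClosed N)
    (hN' : interior N = ∅) (hNc : N.Countable)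
    (hsp : ∀ x ∈ N, ∃ V V' : Set X, IsOpen V ∧ IsOpen V' ∧ x ∈ closure V ∧ x ∈ closure V' ∧
      Disjoint V V') :
    ∃ B : Bool → X → Set X, (∀ b x, IsOpen (B b x) ∧ x ∈ closure (B b x) ∧
      closure (B b x) ∩ N ⊆ {x}) ∧ ∀ x ∈ N, ∀ z ∈ N, Disjoint (B true x) (B false z) := by
  classical
  -- the first approximation
  have h1 : ∀ x, ∃ C : Bool → Set X, (∀ b, IsOpen (C b) ∧ x ∈ closure (C b) ∧
      closure (C b) ∩ N ⊆ {x}) ∧ (x ∈ N → Disjoint (C true) (C false)) := by
    intro x
    by_cases hx : x ∈ N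
    · obtain ⟨V, V', hV, hV', hxV, hxV', hd⟩ := hsp x hx
      have key : ∀ V : Set X, IsOpen V → x ∈ closure V → ∃ B ⊆ V, IsOpen B ∧ x ∈ closure B ∧
          closure B ∩ N ⊆ {x} := by
        intro V hV hxV
        have h2 : x ∈ closure (V \ N) := by
          rw [mem_closure_iff]
          intro O hO hxO
          by_contra hcon
          rw [not_nonempty_iff_eq_empty] at hcon
          obtain ⟨y, hy, hyV⟩ := mem_closure_iff.1 hxV O hO hxO
          have h3 : y ∈ interior N := mem_interior.2 ⟨O ∩ V, fun z hz => by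
            by_contra hzN
            have : z ∈ O ∩ (V \ N) := ⟨hz.1, hz.2, hzN⟩
            rw [hcon] at this
            exact this, hO.inter hV, hy, hyV⟩
          rw [hN'] at h3
          exact h3
        obtain ⟨B, hBA, hB, hB'⟩ := hW _ (hV.sdiff hN) x ⟨h2, fun h => h.2 hx⟩
        have hxB : x ∈ closure B \ (V \ N) := by
          rw [hB']
          exact rfl
        refine ⟨B, hBA.trans sdiff_subset, hB, hxB.1, ?_⟩
        rintro y ⟨hy, hyN⟩
        rw [← hB']
        exact ⟨hy, fun h' => h'.2 hyN⟩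
      obtain ⟨B, hBV, h3⟩ := key V hV hxV
      obtain ⟨B', hBV', h3'⟩ := key V' hV' hxV'
      refine ⟨fun b => if b = true then B else B', ?_, fun _ => ?_⟩
      · rintro (_ | _)
        · simpa using h3'
        · simpa using h3
      · simp only [if_pos, Bool.false_eq_true, if_false]
        exact hd.mono hBV hBV'
    · obtain ⟨B, hB⟩ := exists_single hW hN hN' x
      exact ⟨fun _ => B, fun _ => hB, fun h => absurd h hx⟩
  choose C hC hCd using h1
  obtain ⟨r, hr⟩ := countable_iff_exists_injOn.1 hNc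
  have hfin : ∀ x, {z ∈ N | r z < r x}.Finite := by
    intro x
    refine Set.Finite.of_finite_image ((Set.finite_lt_nat (r x)).subset ?_)
      (hr.mono fun z hz => hz.1)
    rintro _ ⟨z, hz, rfl⟩
    exact hz.2
  have hcl : ∀ x, IsClosed (⋃ z ∈ {z ∈ N | r z < r x}, closure (C z true) ∪ closure (C z false)) :=
    fun x => (hfin x).isClosed_biUnion fun z _ => isClosed_closure.union isClosed_closure
  refine ⟨fun b x => if x ∈ N then C x b \ (⋃ z ∈ {z ∈ N | r z < r x}, closure (C z true) ∪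
    closure (C z false)) else C x b, ?_, ?_⟩
  · intro b x
    by_cases hx : x ∈ N
    · simp only [if_pos hx]
      have h2 : x ∉ ⋃ z ∈ {z ∈ N | r z < r x}, closure (C z true) ∪ closure (C z false) := by
        intro h
        obtain ⟨z, hz, hxz⟩ := mem_iUnion₂.1 h
        have h3 : x = z := by
          rcases hxz with h4 | h4
          · exact (hC z true).2.2 ⟨h4, hx⟩
          · exact (hC z false).2.2 ⟨h4, hx⟩
        rw [h3] at hz
        exact lt_irrefl _ hz.2
      refine ⟨(hC x b).1.sdiff (hcl x), ?_, ?_⟩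
      · rw [mem_closure_iff]
        intro O hO hxO
        obtain ⟨y, hy, hyC⟩ := mem_closure_iff.1 (hC x b).2.1 _ (hO.inter (hcl x).isOpen_compl)
          ⟨hxO, h2⟩
        exact ⟨y, hy.1, hyC, hy.2⟩
      · exact (inter_subset_inter_left _ (closure_mono sdiff_subset)).trans (hC x b).2.2
    · simp only [if_neg hx]
      exact hC x b
  · intro x hx z hz
    simp only [if_pos hx, if_pos hz]
    rw [Set.disjoint_left]
    rintro y ⟨hy1, hy2⟩ ⟨hy3, hy4⟩
    rcases lt_trichotomy (r x) (r z) with h | h | h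
    · exact hy4 (mem_iUnion₂.2 ⟨x, ⟨hx, h⟩, Or.inl (subset_closure hy1)⟩)
    · have h5 := hr hx hz h
      subst h5
      exact Set.disjoint_left.1 (hCd x hx) hy1 hy3
    · exact hy2 (mem_iUnion₂.2 ⟨z, ⟨hz, h⟩, Or.inr (subset_closure hy3)⟩)

theorem interior_inter_closure {S S' : Set X} (hS : IsOpen S)
    (hd : Disjoint S S') : interior (closure S ∩ closure S') = ∅ := by
  rw [eq_empty_iff_forall_notMem]
  intro x hx
  have h1 : x ∈ closure S := (interior_subset hx).1
  obtain ⟨y, hy, hyS⟩ := mem_closure_iff.1 h1 _ isOpen_interior hx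
  obtain ⟨z, hz, hz'⟩ := mem_closure_iff.1 (interior_subset hy).2 _ (isOpen_interior.inter hS)
    ⟨hy, hyS⟩
  exact Set.disjoint_left.1 hd hz.2 hz'

end Pool.Agent.V11242.QC
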