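import Mathlib
import Pool.Agent.V11242.QC.Whyburn

/-!
# The Fréchet–Urysohn property at all points for open Whyburn spaces
-/

set_option autoImplicit false

namespace Pool.Agent.V11242.QC

open Set Filter Topology

variable {X : Type} [TopologicalSpace X]

theorem tendsto_of' {u : ℕ → Qp X} {f : Qp X} {C : ℝ} (hC : 0 < C)
    (h : ∀ x, ∃ m, ∀ n, m ≤ n → |(u n).1 x - f.1 x| < C * (1 / ((n : ℝ) + 1))) :
    Tendsto u atTop (𝓝 f) := by
  rw [tendsto_subtype_rng, tendsto_pi_nhds]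
  intro x
  obtain ⟨m, hm⟩ := h x
  rw [Metric.tendsto_atTop]
  intro ε hε
  obtain ⟨k, hk⟩ := exists_nat_one_div_lt (div_pos hε hC)
  refine ⟨max m k, fun n hn => ?_⟩
  rw [Real.dist_eq]
  refine (hm n ((le_max_left _ _).trans hn)).trans ?_
  have h2 : k ≤ n := (le_max_right _ _).trans hn
  have h3 : 1 / ((n : ℝ) + 1) ≤ 1 / ((k : ℝ) + 1) := by gcongr
  have h4 := h3.trans_lt hk
  rw [lt_div_iff₀ hC] at h4
  linarith

theorem interior_frontier_closed {K : Set X} : interior (K \ interior K) = ∅ := by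
  rw [eq_empty_iff_forall_notMem]
  intro x hx
  have h1 : x ∈ interior K := interior_mono sdiff_subset hx
  exact (interior_subset hx).2 h1

/-- the set of the points with small oscillation -/
def osc (f : X → ℝ) (ε : ℝ) : Set X :=
  {x | ∃ U : Set X, IsOpen U ∧ x ∈ U ∧ ∀ y ∈ U, ∀ z ∈ U, |f y - f z| < ε}

theorem isOpen_osc (f : X → ℝ) (ε : ℝ) : IsOpen (osc f ε) := by
  rw [isOpen_iff_forall_mem_open]
  rintro x ⟨U, hU, hx, h⟩
  exact ⟨U, fun y hy => ⟨U, hU, hy, h⟩, hU, hx⟩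

theorem exists_ball {f : X → ℝ} (hf : QuasiCont f) {x : X} {U : Set X} (hU : IsOpen U)
    (hx : x ∈ U) {ε : ℝ} (hε : 0 < ε) :
    ∃ W : Set X, IsOpen W ∧ W.Nonempty ∧ W ⊆ U ∧ ∀ w ∈ W, |f w - f x| < ε := by
  obtain ⟨W, h1, h2, h3, h4⟩ := hf x U hU hx (Metric.ball (f x) ε) Metric.isOpen_ball
    (Metric.mem_ball_self hε)
  refine ⟨W, h1, h2, h3, fun w hw => ?_⟩
  have := h4 w hw
  rwa [Metric.mem_ball, Real.dist_eq] at this

theorem interior_compl_osc {f : X → ℝ} (hf : QuasiCont f) {ε : ℝ} (hε : 0 < ε) :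
    interior (osc f ε)ᶜ = ∅ := by
  rw [eq_empty_iff_forall_notMem]
  intro x hx
  obtain ⟨W, hW, ⟨w, hw⟩, hWU, hWf⟩ := exists_ball hf isOpen_interior hx (half_pos hε)
  refine interior_subset (hWU hw) ⟨W, hW, hw, fun y hy z hz => ?_⟩
  have h1 := hWf y hy
  have h2 := hWf z hz
  rw [abs_lt] at h1 h2 ⊢
  constructor <;> linarith

theorem split_osc {f : X → ℝ} (hf : QuasiCont f) {ε : ℝ} (hε : 0 < ε) {x : X}
    (hx : x ∈ (osc f ε)ᶜ) : ∃ V V' : Set X, IsOpen V ∧ IsOpen V' ∧ x ∈ closure V ∧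
      x ∈ closure V' ∧ Disjoint V V' := by
  have hε4 : 0 < ε / 4 := by linarith
  refine ⟨interior {y | |f y - f x| < ε / 4}, interior {y | ε / 4 < |f y - f x|},
    isOpen_interior, isOpen_interior, ?_, ?_, ?_⟩
  · rw [mem_closure_iff]
    intro O hO hxO
    obtain ⟨W, hW, ⟨w, hw⟩, hWU, hWf⟩ := exists_ball hf hO hxO hε4
    exact ⟨w, hWU hw, mem_interior.2 ⟨W, hWf, hW, hw⟩⟩
  · rw [mem_closure_iff]
    intro O hO hxO
    obtain ⟨y, hy, hy'⟩ : ∃ y ∈ O, ε / 4 < |f y - f x| := by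
      by_contra hcon
      push Not at hcon
      refine hx ⟨O, hO, hxO, fun y hy z hz => ?_⟩
      have h1 := hcon y hy
      have h2 := hcon z hz
      rw [abs_le] at h1 h2
      rw [abs_lt]
      constructor <;> linarith
    obtain ⟨W, hW, ⟨w, hw⟩, hWU, hWf⟩ := hf y O hO hy {t | ε / 4 < |t - f x|}
      (isOpen_lt continuous_const (continuous_id.sub continuous_const).abs) hy'
    exact ⟨w, hWU hw, mem_interior.2 ⟨W, hWf, hW, hw⟩⟩
  · rw [Set.disjoint_left]
    intro y h1 h2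
    have h1 : |f y - f x| < ε / 4 := (interior_subset h1 : y ∈ {y | |f y - f x| < ε / 4})
    have h2 : ε / 4 < |f y - f x| := (interior_subset h2 : y ∈ {y | ε / 4 < |f y - f x|})
    exact lt_asymm h1 h2

/-- the open part of the approximations -/
def PP (g f : X → ℝ) (K : Set X) (ε : ℝ) : Set X := interior ({y | |g y - f y| < 3 * ε} ∪ Kᶜ)

/-- the approximations -/
def VV (g f : X → ℝ) (K : Set X) (ε : ℝ) : Set X :=
  interior (closure (PP g f K ε)) ∪ {y | y ∈ closure (PP g f K ε) ∧ (y ∉ K ∨ |g y - f y| < ε)}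

theorem minBdd_VV (g f : X → ℝ) (K : Set X) (ε : ℝ) : MinBdd (VV g f K ε) := by
  refine minBdd_between (P := PP g f K ε) isOpen_interior subset_union_left ?_
  rintro y (hy | hy)
  · exact interior_subset hy
  · exact hy.1

theorem mem_VV {g f : X → ℝ} (hg : QuasiCont g) {K : Set X} (hK : IsClosed K) {ε : ℝ}
    (hε : 0 < ε) (hKf : K ⊆ osc f ε) {y : X} (h : |g y - f y| < ε) : y ∈ VV g f K ε := by
  right
  refine ⟨?_, Or.inr h⟩
  by_cases hyK : y ∈ K
  · rw [mem_closure_iff]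
    intro O hO hyO
    obtain ⟨U, hU, hyU, hUf⟩ := hKf hyK
    obtain ⟨W, hW, ⟨w, hw⟩, hWU, hWg⟩ := exists_ball hg (hO.inter hU) ⟨hyO, hyU⟩ hε
    refine ⟨w, (hWU hw).1, mem_interior.2 ⟨W, fun z hz => Or.inl ?_, hW, hw⟩⟩
    have h1 := hWg z hz
    have h2 := hUf y hyU z (hWU hz).2
    show |g z - f z| < 3 * ε
    rw [abs_lt] at h h1 h2 ⊢
    constructor <;> linarith
  · refine subset_closure (mem_interior.2 ⟨Kᶜ, subset_union_right, hK.isOpen_compl, hyK⟩)

theorem of_mem_VV {g f : X → ℝ} (hg : QuasiCont g) {K : Set X} {ε : ℝ}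
    (hε : 0 < ε) (hKf : K ⊆ osc f ε) {y : X} (hy : y ∈ interior K) (h : y ∈ VV g f K ε) :
    |g y - f y| < 5 * ε := by
  rcases h with h | ⟨-, h | h⟩
  · obtain ⟨U, hU, hyU, hUf⟩ := hKf (interior_subset hy)
    obtain ⟨W, hW, ⟨w, hw⟩, hWU, hWg⟩ := exists_ball hg
      ((hU.inter isOpen_interior).inter (isOpen_interior (s := K))) ⟨⟨hyU, h⟩, hy⟩ hε
    obtain ⟨z, hz, hz'⟩ := mem_closure_iff.1 (interior_subset (hWU hw).1.2) W hW hw
    have hz1 : |g z - f z| < 3 * ε := by
      rcases interior_subset hz' with h1 | h1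
      · exact h1
      · exact absurd (interior_subset (hWU hz).2) h1
    have h1 := hWg z hz
    have h2 := hUf y hyU z (hWU hz).1.1
    rw [abs_lt] at h1 h2 hz1 ⊢
    constructor <;> linarith
  · exact absurd (interior_subset hy) h
  · linarith

theorem isFU_of_countable [Countable X] : IsFU (Qp X) := by
  rcases isEmpty_or_nonempty X with h | ⟨⟨r⟩⟩
  · intro f A hf
    obtain ⟨g, -, hg⟩ := mem_closure_iff.1 hf univ isOpen_univ (mem_univ _)
    refine ⟨fun _ => g, fun _ => hg, ?_⟩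
    have h1 : g = f := Subtype.ext (funext fun x => (h.false x).elim)
    rw [h1]
    exact tendsto_const_nhds
  · refine fu_of univ (countable_univ) r fun g _ => ?_
    convert countable_empty
    ext x
    simp

/-- Main theorem. -/
theorem isFU_of_whyburn [T2Space X] (hW : IsOpenWhyburn X) (hS : S1 X) : IsFU (Qp X) := by
  classical
  by_cases hX : Countable X
  · exact isFU_of_countable
  have hinf : Infinite X := by
    by_contra hcon
    rw [not_infinite_iff_finite] at hcon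
    exact hX inferInstance
  have hS' : S1' X := s1'_of_s1 (fun N hN hN' => countable_of_closed hW hS hN hN') hS
  intro f A hf
  obtain ⟨ε, hε⟩ : ∃ ε : ℕ → ℝ, ∀ m, ε m = 1 / ((m : ℝ) + 1) := ⟨_, fun _ => rfl⟩
  have hε0 : ∀ m, 0 < ε m := fun m => by rw [hε]; positivity
  let N : ℕ → Set X := fun m => (osc f.1 (ε m))ᶜ
  have hNcl : ∀ m, IsClosed (N m) := fun m => (isOpen_osc _ _).isClosed_compl
  have hNi : ∀ m, interior (N m) = ∅ := fun m => interior_compl_osc f.2 (hε0 m)
  have hNc : ∀ m, (N m).Countable := fun m => countable_of_closed hW hS (hNcl m) (hNi m)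
  choose B hB hBd using fun m => exists_pairs hW (hNcl m) (hNi m) (hNc m)
    (fun x hx => split_osc f.2 (hε0 m) hx)
  have hop : ∀ m b (F : Finset X), IsOpen (⋃ x ∈ F, B m b x) := fun m b F =>
    isOpen_biUnion fun x _ => (hB m b x).1
  have hcl : ∀ m b (F : Finset X), closure (⋃ x ∈ F, B m b x) = ⋃ x ∈ F, closure (B m b x) :=
    fun m b F => F.finite_toSet.closure_biUnion _
  -- the first selections
  have hsel : ∀ b : Bool, ∃ F : ℕ → Finset X, ∀ y, {m | y ∉ closure (⋃ x ∈ F m, B m b x)}.Finite := by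
    intro b
    obtain ⟨U, hU, -, hU'⟩ := hS' (fun m => range fun F : Finset X => closure (⋃ x ∈ F, B m b x))
      (fun m => ⟨by
        rintro _ ⟨F, rfl⟩
        exact minBdd_closure (hop m b F), fun F => ⟨_, ⟨F, rfl⟩, fun x hx => by
          show x ∈ closure (⋃ x ∈ F, B m b x)
          rw [hcl]
          exact mem_iUnion₂.2 ⟨x, hx, (hB m b x).2.1⟩⟩⟩)
    choose F hF using hU
    have hF : ∀ m, closure (⋃ x ∈ F m, B m b x) = U m := hF
    refine ⟨F, fun y => ?_⟩
    simp only [hF]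
    exact hU' y
  choose F hF using hsel
  let Fo : ℕ → Bool → Finset X := fun m b => (F b m).filter fun x => x ∉ N m
  let Ko : ℕ → Set X := fun m => (⋃ x ∈ Fo m true, B m true x) ∪ ⋃ x ∈ Fo m false, B m false x
  have hKo : ∀ m, IsOpen (Ko m) := fun m => (hop _ _ _).union (hop _ _ _)
  let K : ℕ → Set X := fun m => closure (Ko m)
  have hKmem : ∀ m b x y, x ∈ F b m → x ∉ N m → y ∈ closure (B m b x) → y ∈ K m := by
    intro m b x y hx hxN hy
    refine closure_mono ?_ hy
    have h1 : B m b x ⊆ ⋃ x ∈ Fo m b, B m b x := fun z hz =>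
      mem_iUnion₂.2 ⟨x, Finset.mem_filter.2 ⟨hx, hxN⟩, hz⟩
    cases b
    · exact h1.trans subset_union_right
    · exact h1.trans subset_union_left
  have hKN : ∀ m, K m ⊆ osc f.1 (ε m) := by
    intro m y hy
    by_contra hyN
    have hyN : y ∈ N m := hyN
    have h1 : ∀ b, y ∉ closure (⋃ x ∈ Fo m b, B m b x) := by
      intro b h
      rw [hcl] at h
      obtain ⟨x, hx, hyx⟩ := mem_iUnion₂.1 h
      have h2 : y = x := (hB m b x).2.2 ⟨hyx, hyN⟩
      rw [h2] at hyN
      exact (Finset.mem_filter.1 hx).2 hyN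
    have h2 : y ∈ closure (Ko m) := hy
    rw [show Ko m = (⋃ x ∈ Fo m true, B m true x) ∪ ⋃ x ∈ Fo m false, B m false x from rfl,
      closure_union] at h2
    rcases h2 with h2 | h2
    · exact h1 _ h2
    · exact h1 _ h2
  let Z : ℕ → Set X := fun m => closure (⋃ x ∈ N m, B m true x) ∩ closure (⋃ x ∈ N m, B m false x)
  have hZc : ∀ m, (Z m).Countable := fun m => by
    refine countable_of_closed hW hS (isClosed_closure.inter isClosed_closure)
      (interior_inter_closure (isOpen_biUnion fun x _ => (hB m true x).1) ?_)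
    rw [Set.disjoint_left]
    intro y hy hy'
    obtain ⟨x, hx, hyx⟩ := mem_iUnion₂.1 hy
    obtain ⟨z, hz, hyz⟩ := mem_iUnion₂.1 hy'
    exact Set.disjoint_left.1 (hBd m x hx z hz) hyx hyz
  have hFr : ∀ m, (K m \ interior (K m)).Countable := fun m =>
    countable_of_closed hW hS (isClosed_closure.sdiff isOpen_interior) interior_frontier_closed
  have hN'c : (⋃ m, (N m ∪ Z m ∪ (K m \ interior (K m)))).Countable :=
    countable_iUnion fun m => ((hNc m).union (hZc m)).union (hFr m)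
  obtain ⟨x0⟩ : Nonempty X := inferInstance
  obtain ⟨e, he⟩ := (hN'c.insert x0).exists_eq_range ⟨x0, mem_insert _ _⟩
  have hKev : ∀ y, y ∉ range e → {m | y ∉ interior (K m)}.Finite := by
    intro y hy
    refine ((hF true y).union (hF false y)).subset fun m hm => ?_
    by_contra hcon
    rw [mem_union, not_or] at hcon
    have h1 : ∀ b, y ∈ closure (⋃ x ∈ F b m, B m b x) := by
      intro b
      cases b
      · exact not_not.1 hcon.2
      · exact not_not.1 hcon.1
    have h2 : y ∉ N m ∪ Z m ∪ (K m \ interior (K m)) := by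
      intro h
      apply hy
      rw [← he]
      exact Or.inr (mem_iUnion.2 ⟨m, h⟩)
    have h3 : y ∉ K m := fun h => h2 (Or.inr ⟨h, hm⟩)
    apply h2
    refine Or.inl (Or.inr ?_)
    have h4 : ∀ b, y ∈ closure (⋃ x ∈ N m, B m b x) := by
      intro b
      have h5 := h1 b
      rw [hcl] at h5
      obtain ⟨x, hx, hyx⟩ := mem_iUnion₂.1 h5
      by_cases hxN : x ∈ N m
      · refine closure_mono ?_ hyx
        exact fun z hz => mem_iUnion₂.2 ⟨x, hxN, hz⟩
      · exact absurd (hKmem m b x y hx hxN hyx) h3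
    exact ⟨h4 true, h4 false⟩
  -- the last selection
  obtain ⟨S, hS1, -, hS2⟩ := hS' (fun m => {V | ∃ g ∈ A, (∀ i ≤ m, |g.1 (e i) - f.1 (e i)| < ε m) ∧
      V = VV g.1 f.1 (K m) (ε m)}) (by
    intro m
    refine ⟨?_, fun F => ?_⟩
    · rintro _ ⟨g, -, -, rfl⟩
      exact minBdd_VV _ _ _ _
    · obtain ⟨g, hg, hg'⟩ := exists_of_mem_closure hf (F ∪ (Finset.range (m + 1)).image e) (hε0 m)
      exact ⟨_, ⟨g, hg, fun i hi => hg' _ (Finset.mem_union_right _ (Finset.mem_image_of_mem _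
        (Finset.mem_range.2 (Nat.lt_succ_of_le hi)))), rfl⟩, fun x hx =>
          mem_VV g.2 isClosed_closure (hε0 m) (hKN m) (hg' x (Finset.mem_union_left _ hx))⟩)
  choose g hgA hge hSg using hS1
  refine ⟨g, hgA, tendsto_of' (C := 5) (by norm_num) fun y => ?_⟩
  by_cases hy : y ∈ range e
  · obtain ⟨i, rfl⟩ := hy
    refine ⟨i, fun n hn => ?_⟩
    have h1 := hge n i hn
    rw [← hε]
    linarith [hε0 n]
  · obtain ⟨m, hm⟩ := ((hKev y hy).union (hS2 y)).bddAbove
    refine ⟨m + 1, fun n hn => ?_⟩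
    have h1 : n ∉ {m | y ∉ interior (K m)} ∪ {n | y ∉ S n} := fun h => by
      have := hm h
      omega
    rw [mem_union, not_or] at h1
    have h2 : y ∈ S n := not_not.1 h1.2
    rw [hSg] at h2
    rw [← hε]
    exact of_mem_VV (g n).2 (hε0 n) (hKN n) (not_not.1 h1.1) h2

end Pool.Agent.V11242.QC
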